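import Pool.Agent.PostBSigma.Defs

/-!
# Renaming, normal forms and closure properties of `Σ₁` relations
-/

set_option linter.unusedSectionVars false

namespace Pool.Agent.PostBSigma

/-! ### Renaming -/

/-- lift a renaming under a binder -/
def lift (f : ℕ → ℕ) : ℕ → ℕ
  | 0 => 0
  | n + 1 => f n + 1

def Tm.rename (f : ℕ → ℕ) : Tm → Tm
  | .var n => .var (f n)
  | .zero => .zero
  | .one => .one
  | .add s t => .add (s.rename f) (t.rename f)
  | .mul s t => .mul (s.rename f) (t.rename f)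

def D0.rename : (ℕ → ℕ) → D0 → D0
  | f, .eq s t => .eq (s.rename f) (t.rename f)
  | f, .lt s t => .lt (s.rename f) (t.rename f)
  | f, .neg φ => .neg (φ.rename f)
  | f, .and φ ψ => .and (φ.rename f) (ψ.rename f)
  | f, .ball t φ => .ball (t.rename f) (φ.rename (lift f))

def S1.rename : (ℕ → ℕ) → S1 → S1
  | f, .base φ => .base (φ.rename f)
  | f, .ex φ => .ex (φ.rename (lift f))

section

variable {M : Type} [CommSemiring M] [LinearOrder M]

@[simp] theorem cons_zero (a : M) (v : ℕ → M) : cons a v 0 = a := rfl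
@[simp] theorem cons_succ (a : M) (v : ℕ → M) (n : ℕ) : cons a v (n + 1) = v n := rfl

theorem cons_lift (a : M) (v : ℕ → M) (f : ℕ → ℕ) :
    (fun n => cons a v (lift f n)) = cons a (fun n => v (f n)) := by
  funext n; cases n <;> rfl

theorem Tm.eval_rename (t : Tm) (f : ℕ → ℕ) (v : ℕ → M) :
    (t.rename f).eval v = t.eval (fun n => v (f n)) := by
  induction t with
  | var n => rfl
  | zero => rfl
  | one => rfl
  | add s t hs ht => simp [Tm.rename, Tm.eval, hs, ht]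
  | mul s t hs ht => simp [Tm.rename, Tm.eval, hs, ht]

theorem D0.eval_rename (φ : D0) (f : ℕ → ℕ) (v : ℕ → M) :
    (φ.rename f).eval v ↔ φ.eval (fun n => v (f n)) := by
  induction φ generalizing f v with
  | eq s t => simp [D0.rename, D0.eval, Tm.eval_rename]
  | lt s t => simp [D0.rename, D0.eval, Tm.eval_rename]
  | neg φ ih => simp [D0.rename, D0.eval, ih]
  | and φ ψ ih₁ ih₂ => simp [D0.rename, D0.eval, ih₁, ih₂]
  | ball t φ ih =>
    simp only [D0.rename, D0.eval, Tm.eval_rename, ih, cons_lift]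

theorem S1.eval_rename (φ : S1) (f : ℕ → ℕ) (v : ℕ → M) :
    (φ.rename f).eval v ↔ φ.eval (fun n => v (f n)) := by
  induction φ generalizing f v with
  | base φ => simp [S1.rename, S1.eval, D0.eval_rename]
  | ex φ ih => simp only [S1.rename, S1.eval, ih, cons_lift]

end

/-! ### Derived connectives -/

def D0.or (φ ψ : D0) : D0 := .neg (.and (.neg φ) (.neg ψ))
def D0.bex (t : Tm) (φ : D0) : D0 := .neg (.ball t (.neg φ))

section

variable {M : Type} [CommSemiring M] [LinearOrder M]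

@[simp] theorem D0.eval_eq (s t : Tm) (v : ℕ → M) :
    (D0.eq s t).eval v ↔ s.eval v = t.eval v := Iff.rfl
@[simp] theorem D0.eval_lt (s t : Tm) (v : ℕ → M) :
    (D0.lt s t).eval v ↔ s.eval v < t.eval v := Iff.rfl
@[simp] theorem D0.eval_neg (φ : D0) (v : ℕ → M) : (D0.neg φ).eval v ↔ ¬ φ.eval v := Iff.rfl
@[simp] theorem D0.eval_and (φ ψ : D0) (v : ℕ → M) :
    (D0.and φ ψ).eval v ↔ φ.eval v ∧ ψ.eval v := Iff.rfl
@[simp] theorem D0.eval_ball (t : Tm) (φ : D0) (v : ℕ → M) :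
    (D0.ball t φ).eval v ↔ ∀ a : M, a < t.eval v → φ.eval (cons a v) := Iff.rfl
@[simp] theorem D0.eval_or (φ ψ : D0) (v : ℕ → M) :
    (D0.or φ ψ).eval v ↔ φ.eval v ∨ ψ.eval v := by
  simp [D0.or]; tauto
@[simp] theorem D0.eval_bex (t : Tm) (φ : D0) (v : ℕ → M) :
    (D0.bex t φ).eval v ↔ ∃ a : M, a < t.eval v ∧ φ.eval (cons a v) := by
  simp [D0.bex]
@[simp] theorem S1.eval_base (φ : D0) (v : ℕ → M) : (S1.base φ).eval v ↔ φ.eval v := Iff.rfl
@[simp] theorem S1.eval_ex (φ : S1) (v : ℕ → M) :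
    (S1.ex φ).eval v ↔ ∃ a : M, φ.eval (cons a v) := Iff.rfl

end

/-! ### Single-witness normal form -/

/-- swap variables 0 and 1 -/
def sw : ℕ → ℕ
  | 0 => 1
  | 1 => 0
  | n + 2 => n + 2

/-- `nf φ` has the additional variable `0`, a common strict bound for the witnesses. -/
def S1.nf : S1 → D0
  | .base φ => φ.rename Nat.succ
  | .ex φ => .bex (.var 0) ((S1.nf φ).rename sw)

section

variable {M : Type} [CommSemiring M] [LinearOrder M]

theorem cons_sw (a b : M) (v : ℕ → M) :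
    (fun n => cons a (cons b v) (sw n)) = cons b (cons a v) := by
  funext n
  rcases n with _ | _ | n <;> rfl

theorem cons_succ_fun (a : M) (v : ℕ → M) : (fun n => cons a v (Nat.succ n)) = v := rfl

theorem S1.nf_mono (φ : S1) {b b' : M} (h : b ≤ b') (v : ℕ → M)
    (hb : φ.nf.eval (cons b v)) : φ.nf.eval (cons b' v) := by
  induction φ generalizing v with
  | base φ =>
    simp only [S1.nf, D0.eval_rename, cons_succ_fun] at hb ⊢
    exact hb
  | ex φ ih =>
    simp only [S1.nf, D0.eval_bex, D0.eval_rename, cons_sw] at hb ⊢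
    obtain ⟨a, ha, h'⟩ := hb
    exact ⟨a, lt_of_lt_of_le ha h, ih _ h'⟩

theorem S1.eval_iff_nf (hs : ∀ y : M, ∃ z, y < z) (φ : S1) (v : ℕ → M) :
    φ.eval v ↔ ∃ b : M, φ.nf.eval (cons b v) := by
  induction φ generalizing v with
  | base φ =>
    simp only [S1.nf, D0.eval_rename, cons_succ_fun, S1.eval_base]
    exact ⟨fun h => ⟨0, h⟩, fun ⟨_, h⟩ => h⟩
  | ex φ ih =>
    simp only [S1.nf, D0.eval_bex, D0.eval_rename, cons_sw, S1.eval_ex, ih]
    constructor
    · rintro ⟨a, b, hb⟩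
      obtain ⟨z, hz⟩ := hs a
      exact ⟨max z b, a, lt_of_lt_of_le hz (le_max_left _ _), S1.nf_mono φ (le_max_right _ _) _ hb⟩
    · rintro ⟨b, a, _, hb⟩
      exact ⟨a, b, hb⟩

end

/-! ### `Σ₁` relations on assignments -/

section

variable {M : Type} [CommSemiring M] [LinearOrder M]

/-- `R` is defined by a `Σ₁` formula. -/
def SS (R : (ℕ → M) → Prop) : Prop := ∃ φ : S1, ∀ v, R v ↔ φ.eval v

/-- `R` is defined by a `Δ₀` formula. -/
def DD (R : (ℕ → M) → Prop) : Prop := ∃ φ : D0, ∀ v, R v ↔ φ.eval v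

theorem DD.ss {R : (ℕ → M) → Prop} (h : DD R) : SS R := by
  obtain ⟨φ, h⟩ := h
  exact ⟨.base φ, h⟩

theorem DD.not {R : (ℕ → M) → Prop} (h : DD R) : DD (fun v => ¬ R v) := by
  obtain ⟨φ, h⟩ := h
  exact ⟨.neg φ, fun v => by simp [h]⟩

theorem DD.and {R S : (ℕ → M) → Prop} (h : DD R) (h' : DD S) : DD (fun v => R v ∧ S v) := by
  obtain ⟨φ, h⟩ := h
  obtain ⟨ψ, h'⟩ := h'
  exact ⟨.and φ ψ, fun v => by simp [h, h']⟩

theorem DD.or {R S : (ℕ → M) → Prop} (h : DD R) (h' : DD S) : DD (fun v => R v ∨ S v) := by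
  obtain ⟨φ, h⟩ := h
  obtain ⟨ψ, h'⟩ := h'
  exact ⟨.or φ ψ, fun v => by simp [h, h']⟩

theorem DD.rename {R : (ℕ → M) → Prop} (h : DD R) (f : ℕ → ℕ) :
    DD (fun v => R (fun n => v (f n))) := by
  obtain ⟨φ, h⟩ := h
  exact ⟨φ.rename f, fun v => by simp [h, D0.eval_rename]⟩

theorem SS.rename {R : (ℕ → M) → Prop} (h : SS R) (f : ℕ → ℕ) :
    SS (fun v => R (fun n => v (f n))) := by
  obtain ⟨φ, h⟩ := h
  exact ⟨φ.rename f, fun v => by simp [h, S1.eval_rename]⟩

theorem SS.ex {R : (ℕ → M) → Prop} (h : SS R) : SS (fun v => ∃ a, R (cons a v)) := by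
  obtain ⟨φ, h⟩ := h
  exact ⟨.ex φ, fun v => by simp [h]⟩

theorem SS.congr {R S : (ℕ → M) → Prop} (h : SS R) (e : ∀ v, S v ↔ R v) : SS S := by
  obtain ⟨φ, h⟩ := h
  exact ⟨φ, fun v => (e v).trans (h v)⟩

/-- conjunction / disjunction of prenex formulas -/
theorem SS.and {R S : (ℕ → M) → Prop} (hR : SS R) (hS : SS S) : SS (fun v => R v ∧ S v) := by
  obtain ⟨φ, hφ⟩ := hR
  suffices H : ∀ (φ : S1) (S : (ℕ → M) → Prop), SS S → SS (fun v => φ.eval v ∧ S v) from
    (H φ S hS).congr (fun v => by rw [hφ])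
  clear hφ φ hS S R
  intro φ
  induction φ with
  | base φ =>
    rintro S ⟨ψ, hψ⟩
    suffices H : ∀ (ψ : S1) (φ : D0), SS (M := M) (fun v => φ.eval v ∧ ψ.eval v) from
      (H ψ φ).congr (fun v => by simp [hψ])
    clear hψ ψ S φ
    intro ψ
    induction ψ with
    | base ψ => intro φ; exact ⟨.base (.and φ ψ), fun v => by simp⟩
    | ex ψ ih =>
      intro φ
      obtain ⟨χ, hχ⟩ := ih (φ.rename Nat.succ)
      refine ⟨.ex χ, fun v => ?_⟩
      simp only [S1.eval_ex, ← hχ, D0.eval_rename, cons_succ_fun]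
      constructor
      · rintro ⟨h₁, a, ha⟩; exact ⟨a, h₁, ha⟩
      · rintro ⟨a, h₁, ha⟩; exact ⟨h₁, a, ha⟩
  | ex φ ih =>
    intro S hS
    obtain ⟨χ, hχ⟩ := ih (fun v => S (fun n => v (Nat.succ n))) (hS.rename _)
    refine ⟨.ex χ, fun v => ?_⟩
    simp only [S1.eval_ex, ← hχ, cons_succ_fun]
    constructor
    · rintro ⟨⟨a, ha⟩, h⟩; exact ⟨a, ha, h⟩
    · rintro ⟨a, ha, h⟩; exact ⟨⟨a, ha⟩, h⟩

theorem SS.or {R S : (ℕ → M) → Prop} (hR : SS R) (hS : SS S) : SS (fun v => R v ∨ S v) := by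
  obtain ⟨φ, hφ⟩ := hR
  suffices H : ∀ (φ : S1) (S : (ℕ → M) → Prop), SS S → SS (fun v => φ.eval v ∨ S v) from
    (H φ S hS).congr (fun v => by rw [hφ])
  clear hφ φ hS S R
  intro φ
  induction φ with
  | base φ =>
    rintro S ⟨ψ, hψ⟩
    suffices H : ∀ (ψ : S1) (φ : D0), SS (M := M) (fun v => φ.eval v ∨ ψ.eval v) from
      (H ψ φ).congr (fun v => by simp [hψ])
    clear hψ ψ S φ
    intro ψ
    induction ψ with
    | base ψ => intro φ; exact ⟨.base (.or φ ψ), fun v => by simp⟩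
    | ex ψ ih =>
      intro φ
      obtain ⟨χ, hχ⟩ := ih (φ.rename Nat.succ)
      refine ⟨.ex χ, fun v => ?_⟩
      simp only [S1.eval_ex, ← hχ, D0.eval_rename, cons_succ_fun]
      constructor
      · rintro (h₁ | ⟨a, ha⟩)
        · exact ⟨0, Or.inl h₁⟩
        · exact ⟨a, Or.inr ha⟩
      · rintro ⟨a, h₁ | ha⟩
        · exact Or.inl h₁
        · exact Or.inr ⟨a, ha⟩
  | ex φ ih =>
    intro S hS
    obtain ⟨χ, hχ⟩ := ih (fun v => S (fun n => v (Nat.succ n))) (hS.rename _)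
    refine ⟨.ex χ, fun v => ?_⟩
    simp only [S1.eval_ex, ← hχ, cons_succ_fun]
    constructor
    · rintro (⟨a, ha⟩ | h)
      · exact ⟨a, Or.inl ha⟩
      · exact ⟨0, Or.inr h⟩
    · rintro ⟨a, ha | h⟩
      · exact Or.inl ⟨a, ha⟩
      · exact Or.inr h

/-- bounded universal quantification of `Σ₁` relations, using collection -/
theorem SS.ball (hs : ∀ y : M, ∃ z, y < z)
    (hB : ∀ (φ : S1) (p : ℕ → M) (a : M),
      (∀ x : M, x < a → ∃ y : M, φ.eval (cons x (cons y p))) →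
        ∃ b : M, ∀ x : M, x < a → ∃ y : M, y < b ∧ φ.eval (cons x (cons y p)))
    {R : (ℕ → M) → Prop} (hR : SS R) (t : Tm) :
    SS (fun v => ∀ a, a < t.eval v → R (cons a v)) := by
  obtain ⟨φ, hφ⟩ := hR
  refine ⟨.ex (.base (.ball (t.rename Nat.succ) (φ.nf.rename sw))), fun v => ?_⟩
  simp only [S1.eval_ex, S1.eval_base, D0.eval_ball, Tm.eval_rename, D0.eval_rename,
    cons_succ_fun, hφ, S1.eval_iff_nf hs φ]
  constructor
  · intro h
    obtain ⟨b, hb⟩ := hB (.base (φ.nf.rename sw)) v (t.eval v) (by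
      intro x hx
      simpa only [S1.eval_base, D0.eval_rename, cons_sw] using h x hx)
    refine ⟨b, fun a ha => ?_⟩
    obtain ⟨y, hy, h'⟩ := hb a ha
    simp only [S1.eval_base, D0.eval_rename, cons_sw] at h' ⊢
    exact S1.nf_mono φ hy.le _ h'
  · rintro ⟨b, hb⟩ a ha
    refine ⟨b, ?_⟩
    have := hb a ha
    rwa [cons_sw] at this

end

end Pool.Agent.PostBSigma
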