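import Pool.Agent.PostBSigma.Basic

/-!
# The coding predicates are `Δ₀`, and their meaning in the standard model
-/

set_option linter.unusedSectionVars false

namespace Pool.Agent.PostBSigma

/-- `(c, d)` codes the sequence `1, 2, …, 2 ^ x` and `y = 2 ^ x`. -/
def Code {M : Type} [CommSemiring M] [LinearOrder M] (c d x y : M) : Prop :=
  Beta c d 0 1 ∧
    (∀ i : M, i < x → ∃ r : M, Beta c d i r ∧ Beta c d (i + 1) (r + r)) ∧ Beta c d x y

theorem exp_iff {M : Type} [CommSemiring M] [LinearOrder M] (x y : M) :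
    Exp x y ↔ ∃ c d : M, Code c d x y := Iff.rfl

/-- shift a term under one binder -/
def Tm.up (t : Tm) : Tm := t.rename Nat.succ

def betaF (tc td ti tr : Tm) : D0 :=
  .and (.lt tr (.add .one (.mul (.add ti .one) td)))
    (.bex (.add tc .one)
      (.eq tc.up (.add (.mul (.var 0) (.add .one (.mul (.add ti.up .one) td.up))) tr.up)))

def codeF : D0 :=
  .and (betaF (.var 0) (.var 1) .zero .one)
    (.and
      (.ball (.var 2) (.bex (.add (.var 1) .one)
        (.and (betaF (.var 2) (.var 3) (.var 1) (.var 0))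
          (betaF (.var 2) (.var 3) (.add (.var 1) .one) (.add (.var 0) (.var 0))))))
      (betaF (.var 0) (.var 1) (.var 2) (.var 3)))

section

variable {M : Type} [CommSemiring M] [LinearOrder M]

@[simp] theorem Tm.eval_up (t : Tm) (a : M) (v : ℕ → M) : t.up.eval (cons a v) = t.eval v := by
  simp [Tm.up, Tm.eval_rename]

@[simp] theorem Tm.eval_var (n : ℕ) (v : ℕ → M) : (Tm.var n).eval v = v n := rfl
@[simp] theorem Tm.eval_zero (v : ℕ → M) : Tm.zero.eval v = 0 := rfl
@[simp] theorem Tm.eval_one (v : ℕ → M) : Tm.one.eval v = 1 := rfl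
@[simp] theorem Tm.eval_add (s t : Tm) (v : ℕ → M) : (s.add t).eval v = s.eval v + t.eval v := rfl
@[simp] theorem Tm.eval_mul (s t : Tm) (v : ℕ → M) : (s.mul t).eval v = s.eval v * t.eval v := rfl

variable [IsStrictOrderedRing M] [CanonicallyOrderedAdd M]

theorem betaF_eval (tc td ti tr : Tm) (v : ℕ → M) :
    (betaF tc td ti tr).eval v ↔ Beta (tc.eval v) (td.eval v) (ti.eval v) (tr.eval v) := by
  simp only [betaF, Beta, D0.eval_and, D0.eval_lt, D0.eval_bex, D0.eval_eq, Tm.eval_add,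
    Tm.eval_mul, Tm.eval_one, Tm.eval_up, Tm.eval_var, cons_zero]
  refine and_congr_right fun _ => ⟨fun ⟨q, _, h⟩ => ⟨q, h⟩, fun ⟨q, h⟩ => ⟨q, ?_, h⟩⟩
  rw [h]
  refine lt_of_le_of_lt ?_ (lt_add_one _)
  refine le_trans ?_ (le_self_add)
  exact le_mul_of_one_le_right (zero_le) (le_self_add)

theorem Beta.le {c d i r : M} (h : Beta c d i r) : r ≤ c := by
  obtain ⟨_, q, h⟩ := h
  rw [h]; exact le_add_self

theorem codeF_eval (v : ℕ → M) : codeF.eval v ↔ Code (v 0) (v 1) (v 2) (v 3) := by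
  simp only [codeF, Code, D0.eval_and, D0.eval_ball, D0.eval_bex, betaF_eval, Tm.eval_add,
    Tm.eval_one, Tm.eval_var, Tm.eval_zero]
  refine and_congr_right fun _ => and_congr_left fun _ => forall_congr' fun i =>
    forall_congr' fun _ => ⟨fun ⟨r, _, h⟩ => ⟨r, h⟩, fun ⟨r, h⟩ => ⟨r, ?_, h⟩⟩
  exact lt_of_le_of_lt h.1.le (lt_add_one _)

end

/-! ### The standard model -/

theorem beta_nat {c d i r : ℕ} : Beta c d i r ↔ r = c % (1 + (i + 1) * d) := by
  constructor
  · rintro ⟨h, q, hq⟩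
    rw [hq, Nat.mul_comm, Nat.mul_add_mod, Nat.mod_eq_of_lt h]
  · intro h
    subst h
    refine ⟨Nat.mod_lt _ (by omega), c / (1 + (i + 1) * d), ?_⟩
    exact (Nat.div_add_mod' _ _).symm

theorem code_nat {c d x y : ℕ} (h : Code c d x y) : y = 2 ^ x := by
  obtain ⟨h0, h1, h2⟩ := h
  have key : ∀ i, i ≤ x → Beta c d i (2 ^ i) := by
    intro i
    induction i with
    | zero => intro _; simpa using h0
    | succ i ih =>
      intro hi
      obtain ⟨r, hr, hr'⟩ := h1 i (by omega)
      have : r = 2 ^ i := by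
        rw [beta_nat.1 hr, beta_nat.1 (ih (by omega))]
      subst this
      have e : (2 : ℕ) ^ (i + 1) = 2 ^ i + 2 ^ i := by ring
      rw [e]; exact hr'
  rw [beta_nat.1 h2]
  exact (beta_nat.1 (key x le_rfl)).symm

/-- Codes exist for sequences of arbitrary length. -/
theorem exists_code (x : ℕ) : ∃ c d : ℕ, ∀ z ≤ x, Code c d z (2 ^ z) := by
  let l : List ℕ := (List.range (x + 1)).map (fun i => 2 ^ i)
  have hl : l.length = x + 1 := by simp [l]
  have hb : ∀ i, i ≤ x → Beta (Nat.unbeta l).unpair.1 (Nat.unbeta l).unpair.2 i (2 ^ i) := by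
    intro i hi
    rw [beta_nat]
    have := Nat.beta_unbeta_coe l ⟨i, by omega⟩
    rw [Nat.beta] at this
    simp only [Fin.getElem_fin] at this
    have e : l[i]'(by omega) = 2 ^ i := by simp [l]
    rw [e] at this
    rw [← this, add_comm 1]
  refine ⟨_, _, fun z hz => ⟨by simpa using hb 0 (by omega), fun i hi => ⟨2 ^ i, hb i (by omega), ?_⟩,
    hb z hz⟩⟩
  have e : (2 : ℕ) ^ i + 2 ^ i = 2 ^ (i + 1) := by ring
  rw [e]; exact hb (i + 1) (by omega)

theorem exp_nat {x y : ℕ} : Exp x y ↔ y = 2 ^ x := by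
  constructor
  · rintro ⟨c, d, h⟩
    exact code_nat h
  · rintro rfl
    obtain ⟨c, d, h⟩ := exists_code x
    exact ⟨c, d, h x le_rfl⟩

theorem bit_nat {z s : ℕ} : Bit z s ↔ s.testBit z = true := by
  rw [Nat.testBit_eq_decide_div_mod_eq, decide_eq_true_iff]
  constructor
  · rintro ⟨p, q, r, hp, hr, rfl⟩
    rw [exp_nat] at hp
    subst hp
    have : ((q + q + 1) * 2 ^ z + r) / 2 ^ z = q + q + 1 := by
      rw [mul_comm, Nat.mul_add_div (by positivity), Nat.div_eq_of_lt hr, add_zero]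
    rw [this]; omega
  · intro h
    refine ⟨2 ^ z, s / 2 ^ z / 2, s % 2 ^ z, exp_nat.2 rfl, Nat.mod_lt _ (by positivity), ?_⟩
    have : s / 2 ^ z / 2 + s / 2 ^ z / 2 + 1 = s / 2 ^ z := by omega
    rw [this]
    exact (Nat.div_add_mod' _ _).symm

/-- The `z`-th binary digit of `s` is `0`. -/
def NBit {M : Type} [CommSemiring M] [LinearOrder M] (z s : M) : Prop :=
  ∃ p q r : M, Exp z p ∧ r < p ∧ s = (q + q) * p + r

theorem nbit_nat {z s : ℕ} : NBit z s ↔ s.testBit z = false := by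
  rw [Nat.testBit_eq_decide_div_mod_eq, decide_eq_false_iff_not]
  constructor
  · rintro ⟨p, q, r, hp, hr, rfl⟩
    rw [exp_nat] at hp
    subst hp
    have : ((q + q) * 2 ^ z + r) / 2 ^ z = q + q := by
      rw [mul_comm, Nat.mul_add_div (by positivity), Nat.div_eq_of_lt hr, add_zero]
    rw [this]; omega
  · intro h
    refine ⟨2 ^ z, s / 2 ^ z / 2, s % 2 ^ z, exp_nat.2 rfl, Nat.mod_lt _ (by positivity), ?_⟩
    have : s / 2 ^ z / 2 + s / 2 ^ z / 2 = s / 2 ^ z := by omega
    rw [this]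
    exact (Nat.div_add_mod' _ _).symm

theorem modelBS1_nat : ModelBS1 ℕ where
  add_lt x y z h := by omega
  mul_lt x y z hz h := Nat.mul_lt_mul_of_pos_right h hz
  sub x y h := ⟨y - x, by omega⟩
  nonneg x := Nat.zero_le x
  zero_lt := Nat.zero_lt_one
  discrete x h := h
  induction φ p h0 h x := by
    induction x with
    | zero => exact h0
    | succ x ih => exact h x ih
  exp x := ⟨2 ^ x, exp_nat.2 rfl⟩
  collection φ p a h := by
    classical
    choose! f hf using h
    refine ⟨(Finset.range a).sup f + 1, fun x hx => ⟨f x, ?_, hf x hx⟩⟩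
    exact Nat.lt_succ_of_le (Finset.le_sup (Finset.mem_range.2 hx))

end Pool.Agent.PostBSigma
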