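import Pool.Agent.PostBSigma.Code

/-!
# The combinatorial core, in the standard model
-/

set_option linter.unusedSectionVars false

namespace Pool.Agent.PostBSigma

/-! ### Elementary definability lemmas -/

section

variable {M : Type} [CommSemiring M] [LinearOrder M]

theorem DD.lt_var (i j : ℕ) : DD (fun w : ℕ → M => w i < w j) :=
  ⟨.lt (.var i) (.var j), fun _ => Iff.rfl⟩

theorem DD.le_var (i j : ℕ) : DD (fun w : ℕ → M => w i ≤ w j) :=
  ⟨.neg (.lt (.var j) (.var i)), fun w => by simp⟩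

theorem DD.eq_var (i j : ℕ) : DD (fun w : ℕ → M => w i = w j) :=
  ⟨.eq (.var i) (.var j), fun _ => Iff.rfl⟩

/-- `y` is enumerated into the set defined by `φ` (parameters `P`) with witnesses below `s`. -/
def Stage (φ : S1) (P : ℕ → M) (y s : M) : Prop := φ.nf.eval (cons s (cons y P))

theorem Stage.mono {φ : S1} {P : ℕ → M} {y s s' : M} (h : s ≤ s') (hs : Stage φ P y s) :
    Stage φ P y s' := S1.nf_mono φ h _ hs

/-- `n` enters the set defined by `φ` exactly at stage `t`. -/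
def Ent (φ : S1) (P : ℕ → M) (n t : M) : Prop := Stage φ P n t ∧ ∀ r, r < t → ¬ Stage φ P n r

def EB (x s : M) : Prop := ∃ c, c < s ∧ ∃ d, d < s ∧ ∃ p, p < s ∧ Code c d x p

theorem DD.stage (φ : S1) : DD (fun w : ℕ → M => Stage φ (fun n => w (n + 2)) (w 0) (w 1)) := by
  refine ⟨φ.nf.rename sw, fun w => ?_⟩
  rw [D0.eval_rename]
  have : (fun n => w (sw n)) = cons (w 1) (cons (w 0) (fun n => w (n + 2))) := by
    funext n; rcases n with _ | _ | n <;> rfl
  rw [this]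
  exact Iff.rfl

def rn1 : ℕ → ℕ
  | 0 => 0
  | 1 => 1
  | n + 2 => n + 3

/-- the `Δ₀` formula defining `Ent` -/
def entF (φ : S1) : D0 :=
  .and (φ.nf.rename sw) (.ball (.var 1) (.neg (φ.nf.rename rn1)))

theorem entF_eval (φ : S1) (w : ℕ → M) :
    (entF φ).eval w ↔ Ent φ (fun n => w (n + 2)) (w 0) (w 1) := by
  simp only [entF, D0.eval_and, D0.eval_rename, D0.eval_ball, D0.eval_neg, Ent, Stage, Tm.eval_var]
  have e1 : (fun n => w (sw n)) = cons (w 1) (cons (w 0) (fun n => w (n + 2))) := by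
    funext n; rcases n with _ | _ | n <;> rfl
  have e2 : ∀ r, (fun n => cons r w (rn1 n)) = cons r (cons (w 0) (fun n => w (n + 2))) := by
    intro r
    funext n; rcases n with _ | _ | n <;> rfl
  rw [e1]
  simp only [e2]

theorem DD.ent (φ : S1) : DD (fun w : ℕ → M => Ent φ (fun n => w (n + 2)) (w 0) (w 1)) :=
  ⟨entF φ, fun w => (entF_eval φ w).symm⟩

variable [IsStrictOrderedRing M] [CanonicallyOrderedAdd M]

def rnE : ℕ → ℕ
  | 0 => 2
  | 1 => 1
  | 2 => 3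
  | 3 => 0
  | n + 4 => n + 4

def ebF : D0 := .bex (.var 1) (.bex (.var 2) (.bex (.var 3) (codeF.rename rnE)))

theorem ebF_eval (w : ℕ → M) : ebF.eval w ↔ EB (w 0) (w 1) := by
  simp only [ebF, D0.eval_bex, D0.eval_rename, codeF_eval, EB]
  rfl

theorem DD.eb : DD (fun w : ℕ → M => EB (w 0) (w 1)) := ⟨ebF, fun w => (ebF_eval w).symm⟩

theorem DD.code : DD (fun w : ℕ → M => Code (w 0) (w 1) (w 2) (w 3)) :=
  ⟨codeF, fun w => (codeF_eval w).symm⟩

def rnX : ℕ → ℕ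
  | 0 => 1
  | 1 => 0
  | n + 2 => n + 2

theorem SS.exp : SS (fun w : ℕ → M => Exp (w 0) (w 1)) := by
  have h := (DD.code (M := M)).ss
  -- environment `d :: c :: x :: y`
  exact ((h.rename rnX).ex).ex.congr (fun w => Iff.rfl)

theorem DD.tm_eq (s t : Tm) : DD (fun w : ℕ → M => s.eval w = t.eval w) :=
  ⟨.eq s t, fun _ => Iff.rfl⟩

def rnB : ℕ → ℕ
  | 0 => 3
  | 1 => 2
  | n + 2 => n + 2

theorem SS.bit : SS (fun w : ℕ → M => Bit (w 0) (w 1)) := by
  -- environment `r :: q :: p :: z :: s`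
  have h1 := (SS.exp (M := M)).rename rnB
  have h2 := (DD.lt_var (M := M) 0 2).ss
  have h3 := (DD.tm_eq (M := M) (.var 4)
    (.add (.mul (.add (.add (.var 1) (.var 1)) .one) (.var 2)) (.var 0))).ss
  exact ((h1.and (h2.and h3)).ex.ex.ex).congr (fun w => Iff.rfl)

theorem SS.nbit : SS (fun w : ℕ → M => NBit (w 0) (w 1)) := by
  have h1 := (SS.exp (M := M)).rename rnB
  have h2 := (DD.lt_var (M := M) 0 2).ss
  have h3 := (DD.tm_eq (M := M) (.var 4)
    (.add (.mul (.add (.var 1) (.var 1)) (.var 2)) (.var 0))).ss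
  exact ((h1.and (h2.and h3)).ex.ex.ex).congr (fun w => Iff.rfl)

end

/-! ### The standard model -/

theorem Code.mono {c d x y : ℕ} (h : Code c d x y) {z : ℕ} (hz : z ≤ x) : Code c d z (2 ^ z) := by
  rcases Nat.eq_or_lt_of_le hz with rfl | hlt
  · rw [← code_nat h]; exact h
  · obtain ⟨r, hr, _⟩ := h.2.1 z hlt
    have : Code c d z r := ⟨h.1, fun i hi => h.2.1 i (hi.trans hlt), hr⟩
    rw [← code_nat this]; exact this

theorem EB.mono {x x' s s' : ℕ} (h : EB x s) (hx : x' ≤ x) (hs : s ≤ s') : EB x' s' := by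
  obtain ⟨c, hc, d, hd, p, hp, h⟩ := h
  refine ⟨c, by omega, d, by omega, 2 ^ x', ?_, h.mono hx⟩
  have := code_nat h
  have : 2 ^ x' ≤ 2 ^ x := Nat.pow_le_pow_right (by norm_num) hx
  omega

theorem EB.pow_lt {x s : ℕ} (h : EB x s) : 2 ^ x < s := by
  obtain ⟨c, hc, d, hd, p, hp, h⟩ := h
  rwa [code_nat h] at hp

theorem EB.lt {x s : ℕ} (h : EB x s) : x < s := lt_trans Nat.lt_two_pow_self h.pow_lt

theorem exists_EB (x : ℕ) : ∃ s, EB x s := by
  obtain ⟨c, d, h⟩ := exists_code x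
  exact ⟨max c (max d (2 ^ x)) + 1, c, by omega, d, by omega, 2 ^ x, by omega, h x le_rfl⟩

/-- `s` is at least the settling time of `A` up to `x`, and more than `2 ^ x`. -/
def LL (φ : S1) (P : ℕ → ℕ) (x s : ℕ) : Prop :=
  EB x s ∧ ∀ y, y < x → (∃ s', Stage φ P y s') → Stage φ P y s

theorem LL.mono {φ : S1} {P : ℕ → ℕ} {x x' s s' : ℕ} (h : LL φ P x s) (hx : x' ≤ x)
    (hs : s ≤ s') : LL φ P x' s' :=
  ⟨h.1.mono hx hs, fun y hy he => (h.2 y (by omega) he).mono hs⟩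

/-- a bound for the settling time -/
theorem exists_settle (φ : S1) (P : ℕ → ℕ) (x : ℕ) :
    ∃ s, ∀ y, y < x → (∃ s', Stage φ P y s') → Stage φ P y s := by
  induction x with
  | zero => exact ⟨0, fun y hy => absurd hy (by omega)⟩
  | succ x ih =>
    obtain ⟨s, hs⟩ := ih
    by_cases h : ∃ s', Stage φ P x s'
    · obtain ⟨s', hs'⟩ := h
      refine ⟨max s s', fun y hy he => ?_⟩
      rcases Nat.lt_succ_iff_lt_or_eq.1 hy with h | rfl
      · exact (hs y h he).mono (le_max_left _ _)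
      · exact hs'.mono (le_max_right _ _)
    · refine ⟨s, fun y hy he => ?_⟩
      rcases Nat.lt_succ_iff_lt_or_eq.1 hy with h' | rfl
      · exact hs y h' he
      · exact absurd he h

theorem exists_LL (φ : S1) (P : ℕ → ℕ) (x : ℕ) : ∃ s, LL φ P x s := by
  obtain ⟨s, hs⟩ := exists_settle φ P x
  obtain ⟨s', hs'⟩ := exists_EB x
  exact ⟨max s s', hs'.mono le_rfl (le_max_right _ _),
    fun y hy he => (hs y hy he).mono (le_max_left _ _)⟩

def Sm (ψ : S1) (P : ℕ → ℕ) (m t : ℕ) : Prop := ∃ n, n < m ∧ Ent ψ P n t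

/-- there is a chain `m = t₀ ≪ t₁ ≪ ⋯ ≪ t_k = t` of stages at which numbers below `m` enter
the set defined by `ψ` -/
def RR (φ ψ : S1) (P : ℕ → ℕ) : ℕ → ℕ → ℕ → Prop
  | 0, m, t => t = m
  | k + 1, m, t' => ∃ t, RR φ ψ P k m t ∧ LL φ P t t' ∧ Sm ψ P m t'

/-- version of `LL` with negative oracle information `v` -/
def LLv (φ : S1) (P : ℕ → ℕ) (v x s : ℕ) : Prop :=
  EB x s ∧ ∀ y, y < x → (Stage φ P y s ∨ Bit y v)

def RRv (φ ψ : S1) (P : ℕ → ℕ) : ℕ → ℕ → ℕ → ℕ → Prop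
  | 0, _, m, t => t = m
  | k + 1, v, m, t' => ∃ t, RRv φ ψ P k v m t ∧ LLv φ P v t t' ∧ Sm ψ P m t'

theorem LLv.ll {φ : S1} {P : ℕ → ℕ} {v x s : ℕ}
    (hv : ∀ z, Bit z v → ¬ ∃ s', Stage φ P z s') (h : LLv φ P v x s) : LL φ P x s :=
  ⟨h.1, fun y hy he => (h.2 y hy).resolve_right fun hb => hv y hb he⟩

theorem RRv.rr {φ ψ : S1} {P : ℕ → ℕ} {v : ℕ}
    (hv : ∀ z, Bit z v → ¬ ∃ s', Stage φ P z s') {k m t : ℕ} (h : RRv φ ψ P k v m t) :
    RR φ ψ P k m t := by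
  induction k generalizing t with
  | zero => exact h
  | succ k ih =>
    obtain ⟨t, h1, h2, h3⟩ := h
    exact ⟨t, ih h1, h2.ll hv, h3⟩

theorem LL.llv {φ : S1} {P : ℕ → ℕ} {v x s N : ℕ}
    (hv : ∀ z, z < N → (¬ ∃ s', Stage φ P z s') → Bit z v) (hx : x ≤ N) (h : LL φ P x s) :
    LLv φ P v x s :=
  ⟨h.1, fun y hy => or_iff_not_imp_left.2 fun hn =>
    hv y (by omega) fun he => hn (h.2 y hy he)⟩

theorem RR.rrv {φ ψ : S1} {P : ℕ → ℕ} {v N : ℕ}
    (hv : ∀ z, z < N → (¬ ∃ s', Stage φ P z s') → Bit z v) {k m t : ℕ} (ht : t ≤ N)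
    (h : RR φ ψ P k m t) : RRv φ ψ P k v m t := by
  induction k generalizing t with
  | zero => exact h
  | succ k ih =>
    obtain ⟨t', h1, h2, h3⟩ := h
    have := h2.1.lt
    exact ⟨t', ih (by omega) h1, h2.llv hv (by omega), h3⟩

/-- code of a bounded set of numbers -/
theorem exists_bits (N : ℕ) (Q : ℕ → Prop) : ∃ v, ∀ z, Bit z v ↔ z < N ∧ Q z := by
  classical
  refine ⟨Nat.ofBits (fun i : Fin N => decide (Q i)), fun z => ?_⟩
  rw [bit_nat]
  by_cases h : z < N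
  · rw [Nat.testBit_ofBits_lt _ _ h]; simp [h]
  · rw [Nat.testBit_ofBits_ge _ _ (by omega)]; simp [h]

theorem ball_nat {R : (ℕ → ℕ) → Prop} (hR : SS R) (t : Tm) :
    SS (fun v => ∀ a, a < t.eval v → R (cons a v)) :=
  hR.ball (fun y => ⟨y + 1, Nat.lt_succ_self y⟩) modelBS1_nat.collection t

/-! definability of the relations -/

def rA : ℕ → ℕ
  | 0 => 0
  | 1 => 3
  | n + 2 => n + 4

def rS : ℕ → ℕ
  | 0 => 1
  | n + 1 => n + 2

theorem SS.llv (φ : S1) :
    SS (fun w : ℕ → ℕ => LLv φ (fun n => w (n + 3)) (w 0) (w 1) (w 2)) := by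
  have h1 : SS (fun w : ℕ → ℕ => EB (w 1) (w 2)) := ((DD.eb (M := ℕ)).ss.rename rS)
  have h2 : SS (fun w : ℕ → ℕ => Stage φ (fun n => w (n + 4)) (w 0) (w 3)) :=
    ((DD.stage (M := ℕ) φ).ss.rename rA)
  have h3 := h2.or (SS.bit (M := ℕ))
  exact (h1.and (ball_nat h3 (.var 1))).congr (fun w => Iff.rfl)

theorem SS.sm (ψ : S1) : SS (fun w : ℕ → ℕ => Sm ψ (fun n => w (n + 2)) (w 0) (w 1)) := by
  have h1 : SS (fun w : ℕ → ℕ => w 0 < w 1) := (DD.lt_var 0 1).ss
  have h2 : SS (fun w : ℕ → ℕ => Ent ψ (fun n => w (n + 3)) (w 0) (w 2)) :=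
    ((DD.ent (M := ℕ) ψ).ss.rename (fun | 0 => 0 | n + 1 => n + 2))
  exact (h1.and h2).ex.congr (fun w => Iff.rfl)

theorem SS.rrv (φ ψ : S1) (k : ℕ) :
    SS (fun w : ℕ → ℕ => RRv φ ψ (fun n => w (n + 3)) k (w 0) (w 1) (w 2)) := by
  induction k with
  | zero => exact (DD.eq_var 2 1).ss
  | succ k ih =>
    -- environment `t :: v :: m :: t' :: P`
    have h1 : SS (fun w : ℕ → ℕ => RRv φ ψ (fun n => w (n + 4)) k (w 1) (w 2) (w 0)) :=
      ih.rename (fun | 0 => 1 | 1 => 2 | 2 => 0 | n + 3 => n + 4)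
    have h2 : SS (fun w : ℕ → ℕ => LLv φ (fun n => w (n + 4)) (w 1) (w 0) (w 3)) :=
      (SS.llv φ).rename (fun | 0 => 1 | 1 => 0 | n + 2 => n + 3)
    have h3 : SS (fun w : ℕ → ℕ => Sm ψ (fun n => w (n + 4)) (w 2) (w 3)) :=
      (SS.sm ψ).rename (fun n => n + 2)
    exact (h1.and (h2.and h3)).ex.congr (fun w => Iff.rfl)

/-- the oracle computation -/
def Phi (φ ψ : S1) (P : ℕ → ℕ) (k B x y v : ℕ) : Prop :=
  ∃ m t s, B ≤ m ∧ x ≤ m ∧ y ≤ m ∧ RRv φ ψ P k v m t ∧ LLv φ P v t s ∧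
    (∀ z, z < x → (NBit z x ∨ Stage ψ P z s)) ∧ (∀ z, z < y → (NBit z y ∨ ¬ Stage ψ P z s))

theorem ce4_phi (φ ψ : S1) (P : ℕ → ℕ) (k B : ℕ) :
    CE4 (fun x y _ v : ℕ => Phi φ ψ P k B x y v) := by
  -- environment `s :: t :: m :: x :: y :: u :: v :: B :: P`
  have h1 : SS (fun w : ℕ → ℕ => w 7 ≤ w 2) := (DD.le_var 7 2).ss
  have h2 : SS (fun w : ℕ → ℕ => w 3 ≤ w 2) := (DD.le_var 3 2).ss
  have h3 : SS (fun w : ℕ → ℕ => w 4 ≤ w 2) := (DD.le_var 4 2).ss
  have h4 : SS (fun w : ℕ → ℕ => RRv φ ψ (fun n => w (n + 8)) k (w 6) (w 2) (w 1)) :=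
    (SS.rrv φ ψ k).rename (fun | 0 => 6 | 1 => 2 | 2 => 1 | n + 3 => n + 8)
  have h5 : SS (fun w : ℕ → ℕ => LLv φ (fun n => w (n + 8)) (w 6) (w 1) (w 0)) :=
    (SS.llv φ).rename (fun | 0 => 6 | 1 => 1 | 2 => 0 | n + 3 => n + 8)
  -- environment `z :: s :: t :: m :: x :: y :: u :: v :: B :: P`
  have h6 : SS (fun w : ℕ → ℕ => NBit (w 0) (w 4)) :=
    (SS.nbit (M := ℕ)).rename (fun | 0 => 0 | n + 1 => n + 4)
  have h6' : SS (fun w : ℕ → ℕ => NBit (w 0) (w 5)) :=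
    (SS.nbit (M := ℕ)).rename (fun | 0 => 0 | n + 1 => n + 5)
  have h7 : DD (fun w : ℕ → ℕ => Stage ψ (fun n => w (n + 9)) (w 0) (w 1)) :=
    (DD.stage (M := ℕ) ψ).rename (fun | 0 => 0 | 1 => 1 | n + 2 => n + 9)
  have h8 := ball_nat (h6.or h7.ss) (.var 3)
  have h9 := ball_nat (h6'.or h7.not.ss) (.var 4)
  have h := (h1.and (h2.and (h3.and (h4.and (h5.and (h8.and h9)))))).ex.ex.ex
  obtain ⟨χ, hχ⟩ := h
  refine ⟨χ, cons B P, fun x y u v => ?_⟩
  rw [← hχ]
  rfl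

/-- If `C` is not Turing reducible to `A`, there are arbitrarily long chains. -/
theorem exists_chain (φ ψ : S1) (P : ℕ → ℕ)
    (h : ¬ TuringLE {x : ℕ | ψ.eval (cons x P)} {x : ℕ | φ.eval (cons x P)}) (k : ℕ) :
    ∀ B, ∃ m, B ≤ m ∧ ∃ t, RR φ ψ P k m t := by
  induction k with
  | zero => exact fun B => ⟨B, le_rfl, B, rfl⟩
  | succ k ih =>
    by_contra hcon
    push Not at hcon
    obtain ⟨B, hB⟩ := hcon
    have hA : ∀ z, z ∈ {x : ℕ | φ.eval (cons x P)} ↔ ∃ s, Stage φ P z s := fun z =>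
      S1.eval_iff_nf (fun y => ⟨y + 1, Nat.lt_succ_self y⟩) φ _
    have hC : ∀ z, z ∈ {x : ℕ | ψ.eval (cons x P)} ↔ ∃ s, Stage ψ P z s := fun z =>
      S1.eval_iff_nf (fun y => ⟨y + 1, Nat.lt_succ_self y⟩) ψ _
    -- the decision procedure
    have key : ∀ m t s z, B ≤ m → RR φ ψ P k m t → LL φ P t s → z < m →
        (∃ s', Stage ψ P z s') → Stage ψ P z s := by
      intro m t s z hm hR hL hz he
      by_contra hn
      classical
      have hent : Ent ψ P z (Nat.find he) := ⟨Nat.find_spec he, fun r hr => Nat.find_min he hr⟩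
      have hlt : s ≤ Nat.find he := by
        by_contra hlt
        exact hn ((Nat.find_spec he).mono (by omega))
      exact hB m hm _ ⟨t, hR, hL.mono le_rfl hlt, z, hz, hent⟩
    refine h ⟨_, ce4_phi φ ψ P k B, fun x y => ?_⟩
    constructor
    · rintro ⟨hx, hy⟩
      obtain ⟨m, hm, t, ht⟩ := ih (max B (max x y))
      obtain ⟨s₀, hs₀⟩ := exists_LL φ P t
      obtain ⟨s₁, hs₁⟩ := exists_settle ψ P (max x y)
      obtain ⟨v, hv⟩ := exists_bits (max m t) (fun z => ¬ ∃ s', Stage φ P z s')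
      refine ⟨0, v, ?_, ?_, m, t, max s₀ s₁, by omega, by omega, by omega, ?_, ?_, ?_, ?_⟩
      · intro z hz
        rw [bit_nat] at hz
        simp at hz
      · intro z hz hzA
        exact ((hv z).1 hz).2 ((hA z).1 hzA)
      · exact ht.rrv (N := max m t) (fun z hz he => (hv z).2 ⟨hz, he⟩) (le_max_right _ _)
      · exact (hs₀.mono le_rfl (le_max_left _ _)).llv (N := max m t)
          (fun z hz he => (hv z).2 ⟨hz, he⟩) (le_max_right _ _)
      · intro z hz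
        rw [nbit_nat]
        by_cases hb : x.testBit z = true
        · right
          exact (hs₁ z (by omega) ((hC z).1 (hx z (bit_nat.2 hb)))).mono (le_max_right _ _)
        · left; simpa using hb
      · intro z hz
        rw [nbit_nat]
        by_cases hb : y.testBit z = true
        · right
          intro hst
          exact hy z (bit_nat.2 hb) ((hC z).2 ⟨_, hst⟩)
        · left; simpa using hb
    · rintro ⟨u, v, _, hv, m, t, s, hBm, hxm, hym, hR, hL, h1, h2⟩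
      have hv' : ∀ z, Bit z v → ¬ ∃ s', Stage φ P z s' := fun z hz he => hv z hz ((hA z).2 he)
      constructor
      · intro z hz
        have hzx : z < x := by
          rw [bit_nat] at hz
          exact lt_of_lt_of_le Nat.lt_two_pow_self (Nat.ge_two_pow_of_testBit hz)
        rcases h1 z hzx with h | h
        · rw [bit_nat] at hz; rw [nbit_nat, hz] at h; simp at h
        · exact (hC z).2 ⟨_, h⟩
      · intro z hz hzC
        have hzy : z < y := by
          rw [bit_nat] at hz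
          exact lt_of_lt_of_le Nat.lt_two_pow_self (Nat.ge_two_pow_of_testBit hz)
        rcases h2 z hzy with h | h
        · rw [bit_nat] at hz; rw [nbit_nat, hz] at h; simp at h
        · exact h (key m t s z hBm (hR.rr hv') (hL.ll hv') (by omega) ((hC z).1 hzC))

end Pool.Agent.PostBSigma
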