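import Pool.Agent.PostBSigma.Core

/-!
# Cuts in an ultrapower of the standard model
-/

set_option linter.unusedSectionVars false

namespace Pool.Agent.PostBSigma

open Filter

/-- the ultrafilter -/
noncomputable abbrev UU : Ultrafilter ℕ := hyperfilter ℕ

/-- the ultrapower -/
abbrev NN : Type := Germ (UU : Filter ℕ) ℕ

/-- the germ of a sequence -/
noncomputable def gm (f : ℕ → ℕ) : NN := (f : Germ (UU : Filter ℕ) ℕ)

/-- a representative of a germ -/
noncomputable def rp (x : NN) : ℕ → ℕ := Quotient.out x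

theorem gm_rp (x : NN) : gm (rp x) = x := Quotient.out_eq x

theorem gm_eq {f g : ℕ → ℕ} : gm f = gm g ↔ ∀ᶠ j in (UU : Filter ℕ), f j = g j := Germ.coe_eq

theorem gm_lt {f g : ℕ → ℕ} : gm f < gm g ↔ ∀ᶠ j in (UU : Filter ℕ), f j < g j := Germ.coe_lt

theorem gm_le {f g : ℕ → ℕ} : gm f ≤ gm g ↔ ∀ᶠ j in (UU : Filter ℕ), f j ≤ g j := Germ.coe_le

theorem gm_add (f g : ℕ → ℕ) : gm f + gm g = gm (fun j => f j + g j) := rfl
theorem gm_mul (f g : ℕ → ℕ) : gm f * gm g = gm (fun j => f j * g j) := rfl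
theorem gm_zero : (0 : NN) = gm (fun _ => 0) := rfl
theorem gm_one : (1 : NN) = gm (fun _ => 1) := rfl
theorem gm_cast (n : ℕ) : (n : NN) = gm (fun _ => n) := rfl

theorem rp_gm (f : ℕ → ℕ) : ∀ᶠ j in (UU : Filter ℕ), rp (gm f) j = f j := by
  rw [← gm_eq, gm_rp]

theorem eventually_gt (i : ℕ) : ∀ᶠ j in (UU : Filter ℕ), i < j := by
  have : ∀ᶠ j in (cofinite : Filter ℕ), i < j := by
    rw [Nat.cofinite_eq_atTop]; exact eventually_gt_atTop i
  exact this.filter_mono Filter.hyperfilter_le_cofinite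

theorem not_ev_false : ¬ ∀ᶠ _ in (UU : Filter ℕ), False := fun h => h.exists.elim fun _ h => h

section seg

/-- An initial segment of the ultrapower which is a subsemiring. -/
structure Seg where
  S : Subsemiring NN
  down : ∀ x ∈ S, ∀ y : NN, y ≤ x → y ∈ S
  /-- something lies above -/
  top : NN
  top_not_mem : top ∉ S

variable (K : Seg)

/-- the model -/
abbrev Seg.M : Type := K.S

variable {K}

noncomputable def rpM (x : K.M) : ℕ → ℕ := rp x.1

theorem gm_rpM (x : K.M) : gm (rpM x) = x.1 := gm_rp _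

theorem Seg.eq_iff {x y : K.M} : x = y ↔ ∀ᶠ j in (UU : Filter ℕ), rpM x j = rpM y j := by
  rw [← gm_eq, gm_rpM, gm_rpM, Subtype.ext_iff]

theorem Seg.lt_iff {x y : K.M} : x < y ↔ ∀ᶠ j in (UU : Filter ℕ), rpM x j < rpM y j := by
  rw [← gm_lt, gm_rpM, gm_rpM]; rfl

theorem Seg.le_iff {x y : K.M} : x ≤ y ↔ ∀ᶠ j in (UU : Filter ℕ), rpM x j ≤ rpM y j := by
  rw [← gm_le, gm_rpM, gm_rpM]; rfl

theorem Seg.rp_add (x y : K.M) :
    ∀ᶠ j in (UU : Filter ℕ), rpM (x + y) j = rpM x j + rpM y j := by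
  rw [← gm_eq, gm_rpM, ← gm_add, gm_rpM, gm_rpM]; rfl

theorem Seg.rp_mul (x y : K.M) :
    ∀ᶠ j in (UU : Filter ℕ), rpM (x * y) j = rpM x j * rpM y j := by
  rw [← gm_eq, gm_rpM, ← gm_mul, gm_rpM, gm_rpM]; rfl

theorem Seg.rp_zero : ∀ᶠ j in (UU : Filter ℕ), rpM (0 : K.M) j = 0 := rp_gm _

theorem Seg.rp_one : ∀ᶠ j in (UU : Filter ℕ), rpM (1 : K.M) j = 1 := rp_gm _

theorem Seg.rp_cast (n : ℕ) : ∀ᶠ j in (UU : Filter ℕ), rpM (n : K.M) j = n := rp_gm _

/-- make an element of the segment from a sequence -/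
noncomputable def Seg.mk' (f : ℕ → ℕ) (h : gm f ∈ K.S) : K.M := ⟨gm f, h⟩

theorem Seg.rp_mk (f : ℕ → ℕ) (h : gm f ∈ K.S) :
    ∀ᶠ j in (UU : Filter ℕ), rpM (Seg.mk' f h : K.M) j = f j := rp_gm _

theorem Seg.mem_of_le {f : ℕ → ℕ} (x : K.M) (h : ∀ᶠ j in (UU : Filter ℕ), f j ≤ rpM x j) :
    gm f ∈ K.S := by
  refine K.down x.1 x.2 _ ?_
  rw [← gm_rpM x, gm_le]; exact h

instance : CanonicallyOrderedAdd K.M where
  exists_add_of_le {a b} h := by
    rw [Seg.le_iff] at h
    have hm : gm (fun j => rpM b j - rpM a j) ∈ K.S :=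
      Seg.mem_of_le b (Eventually.of_forall fun j => Nat.sub_le _ _)
    refine ⟨Seg.mk' _ hm, ?_⟩
    rw [Seg.eq_iff]
    filter_upwards [h, Seg.rp_add a (Seg.mk' _ hm), Seg.rp_mk _ hm] with j h1 h2 h3
    rw [h2, h3]; omega
  le_self_add a b := by
    rw [Seg.le_iff]
    filter_upwards [Seg.rp_add a b] with j h
    omega
  le_add_self a b := by
    rw [Seg.le_iff]
    filter_upwards [Seg.rp_add b a] with j h
    omega

theorem Seg.tm_eval (t : Tm) (v : ℕ → K.M) :
    ∀ᶠ j in (UU : Filter ℕ), rpM (t.eval v) j = t.eval (fun i => rpM (v i) j) := by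
  induction t with
  | var n => exact Eventually.of_forall fun j => rfl
  | zero => exact Seg.rp_zero
  | one => exact Seg.rp_one
  | add s t hs ht =>
    filter_upwards [hs, ht, Seg.rp_add (s.eval v) (t.eval v)] with j h1 h2 h3
    simp only [Tm.eval, h3, h1, h2]
  | mul s t hs ht =>
    filter_upwards [hs, ht, Seg.rp_mul (s.eval v) (t.eval v)] with j h1 h2 h3
    simp only [Tm.eval, h3, h1, h2]

theorem cons_rp (a : K.M) (v : ℕ → K.M) (j : ℕ) :
    (fun i => rpM (cons a v i) j) = cons (rpM a j) (fun i => rpM (v i) j) := by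
  funext n; cases n <;> rfl

/-- Łoś's theorem for `Δ₀` formulas in initial segments. -/
theorem Seg.los (φ : D0) (v : ℕ → K.M) :
    φ.eval v ↔ ∀ᶠ j in (UU : Filter ℕ), φ.eval (fun i => rpM (v i) j) := by
  induction φ generalizing v with
  | eq s t =>
    rw [D0.eval_eq, Seg.eq_iff]
    refine eventually_congr ?_
    filter_upwards [Seg.tm_eval s v, Seg.tm_eval t v] with j h1 h2
    rw [D0.eval_eq, h1, h2]
  | lt s t =>
    rw [D0.eval_lt, Seg.lt_iff]
    refine eventually_congr ?_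
    filter_upwards [Seg.tm_eval s v, Seg.tm_eval t v] with j h1 h2
    rw [D0.eval_lt, h1, h2]
  | neg φ ih =>
    rw [D0.eval_neg, ih, ← Ultrafilter.eventually_not]
    rfl
  | and φ ψ ih₁ ih₂ =>
    rw [D0.eval_and, ih₁, ih₂, ← eventually_and]
    rfl
  | ball t φ ih =>
    rw [D0.eval_ball]
    constructor
    · intro h
      by_contra hn
      have hn' : ∀ᶠ j in (UU : Filter ℕ), ∃ a, a < t.eval (fun i => rpM (v i) j) ∧
          ¬ φ.eval (cons a (fun i => rpM (v i) j)) := by
        rw [← Ultrafilter.eventually_not] at hn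
        filter_upwards [hn] with j hj
        rw [D0.eval_ball] at hj
        push Not at hj
        exact hj
      classical
      let f : ℕ → ℕ := fun j =>
        if hj : ∃ a, a < t.eval (fun i => rpM (v i) j) ∧
          ¬ φ.eval (cons a (fun i => rpM (v i) j)) then hj.choose else 0
      have hf : ∀ᶠ j in (UU : Filter ℕ), f j < t.eval (fun i => rpM (v i) j) ∧
          ¬ φ.eval (cons (f j) (fun i => rpM (v i) j)) := by
        filter_upwards [hn'] with j hj
        simp only [f, dif_pos hj]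
        exact hj.choose_spec
      have hm : gm f ∈ K.S := Seg.mem_of_le (t.eval v) (by
        filter_upwards [hf, Seg.tm_eval t v] with j h1 h2
        rw [h2]; exact h1.1.le)
      have h1 := h (Seg.mk' f hm) (by
        rw [Seg.lt_iff]
        filter_upwards [hf, Seg.tm_eval t v, Seg.rp_mk f hm] with j h1 h2 h3
        rw [h2, h3]; exact h1.1)
      rw [ih] at h1
      have h2 : ∀ᶠ j in (UU : Filter ℕ), False := by
        filter_upwards [h1, hf, Seg.rp_mk f hm] with j h1 h2 h3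
        rw [cons_rp, h3] at h1
        exact h2.2 h1
      exact not_ev_false h2
    · intro h a ha
      rw [ih]
      rw [Seg.lt_iff] at ha
      filter_upwards [h, ha, Seg.tm_eval t v] with j h1 h2 h3
      rw [cons_rp]
      exact h1 _ (by rw [← h3]; exact h2)

theorem Seg.lt_add_one (y : K.M) : y < y + 1 := by
  rw [Seg.lt_iff]
  filter_upwards [Seg.rp_add y 1, Seg.rp_one (K := K)] with j h1 h2
  omega

theorem Seg.induction (φ : D0) (p : ℕ → K.M) (h0 : φ.eval (cons 0 p))
    (hs : ∀ x : K.M, φ.eval (cons x p) → φ.eval (cons (x + 1) p)) (x : K.M) :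
    φ.eval (cons x p) := by
  by_contra hx
  rw [Seg.los, ← Ultrafilter.eventually_not] at hx
  rw [Seg.los] at h0
  simp only [cons_rp] at h0 hx
  have key : ∀ᶠ j in (UU : Filter ℕ), ∃ z, z < rpM x j ∧
      φ.eval (cons z (fun i => rpM (p i) j)) ∧ ¬ φ.eval (cons (z + 1) (fun i => rpM (p i) j)) := by
    filter_upwards [h0, hx, Seg.rp_zero (K := K)] with j h1 h2 h3
    rw [h3] at h1
    by_contra hcon
    push Not at hcon
    have : ∀ z, z ≤ rpM x j → φ.eval (cons z (fun i => rpM (p i) j)) := by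
      intro z
      induction z with
      | zero => intro _; exact h1
      | succ z ih => intro hz; exact hcon z (by omega) (ih (by omega))
    exact h2 (this _ le_rfl)
  classical
  let f : ℕ → ℕ := fun j =>
    if hj : ∃ z, z < rpM x j ∧ φ.eval (cons z (fun i => rpM (p i) j)) ∧
      ¬ φ.eval (cons (z + 1) (fun i => rpM (p i) j)) then hj.choose else 0
  have hf : ∀ᶠ j in (UU : Filter ℕ), f j < rpM x j ∧
      φ.eval (cons (f j) (fun i => rpM (p i) j)) ∧
      ¬ φ.eval (cons (f j + 1) (fun i => rpM (p i) j)) := by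
    filter_upwards [key] with j hj
    simp only [f, dif_pos hj]
    exact hj.choose_spec
  have hm : gm f ∈ K.S := Seg.mem_of_le x (by
    filter_upwards [hf] with j h1
    exact h1.1.le)
  have h1 := hs (Seg.mk' f hm) (by
    rw [Seg.los]
    filter_upwards [hf, Seg.rp_mk f hm] with j h1 h3
    rw [cons_rp, h3]; exact h1.2.1)
  rw [Seg.los] at h1
  have h2 : ∀ᶠ j in (UU : Filter ℕ), False := by
    filter_upwards [h1, hf, Seg.rp_mk f hm, Seg.rp_add (Seg.mk' f hm) 1,
      Seg.rp_one (K := K)] with j h1 h2 h3 h4 h5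
    rw [cons_rp, h4, h3, h5] at h1
    exact h2.2.2 h1
  exact not_ev_false h2

theorem Seg.collection (φ : S1) (p : ℕ → K.M) (a : K.M)
    (h : ∀ x : K.M, x < a → ∃ y : K.M, φ.eval (cons x (cons y p))) :
    ∃ b : K.M, ∀ x : K.M, x < a → ∃ y : K.M, y < b ∧ φ.eval (cons x (cons y p)) := by
  classical
  let Q : ℕ → ℕ → Prop := fun j d => ∀ x, x < rpM a j →
    ∃ y, y < d ∧ φ.nf.eval (cons d (cons x (cons y (fun i => rpM (p i) j))))
  have hQ : ∀ D : ℕ → ℕ, gm D ∉ K.S → ∀ᶠ j in (UU : Filter ℕ), Q j (D j) := by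
    intro D hD
    by_contra hn
    rw [← Ultrafilter.eventually_not] at hn
    have hn' : ∀ᶠ j in (UU : Filter ℕ), ∃ x, x < rpM a j ∧
        ∀ y, y < D j → ¬ φ.nf.eval (cons (D j) (cons x (cons y (fun i => rpM (p i) j)))) := by
      filter_upwards [hn] with j hj
      simp only [Q] at hj
      push Not at hj
      exact hj
    let f : ℕ → ℕ := fun j => if hj : ∃ x, x < rpM a j ∧
        ∀ y, y < D j → ¬ φ.nf.eval (cons (D j) (cons x (cons y (fun i => rpM (p i) j))))
      then hj.choose else 0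
    have hf : ∀ᶠ j in (UU : Filter ℕ), f j < rpM a j ∧ ∀ y, y < D j →
        ¬ φ.nf.eval (cons (D j) (cons (f j) (cons y (fun i => rpM (p i) j)))) := by
      filter_upwards [hn'] with j hj
      simp only [f, dif_pos hj]
      exact hj.choose_spec
    have hm : gm f ∈ K.S := Seg.mem_of_le a (by
      filter_upwards [hf] with j h1
      exact h1.1.le)
    obtain ⟨y, hy⟩ := h (Seg.mk' f hm) (by
      rw [Seg.lt_iff]
      filter_upwards [hf, Seg.rp_mk f hm] with j h1 h2
      rw [h2]; exact h1.1)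
    rw [S1.eval_iff_nf (fun y => ⟨y + 1, Seg.lt_add_one y⟩)] at hy
    obtain ⟨b, hb⟩ := hy
    rw [Seg.los] at hb
    have hD' : ∀ z : K.M, ∀ᶠ j in (UU : Filter ℕ), rpM z j < D j := by
      intro z
      rw [← gm_lt, gm_rpM]
      by_contra hcon
      exact hD (K.down z.1 z.2 _ (not_lt.1 hcon))
    have h2 : ∀ᶠ j in (UU : Filter ℕ), False := by
      filter_upwards [hb, hf, Seg.rp_mk f hm, hD' y, hD' b] with j h1 h2 h3 h4 h5
      rw [cons_rp, cons_rp, cons_rp, h3] at h1
      exact h2.2 _ h4 (S1.nf_mono φ h5.le _ h1)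
    exact not_ev_false h2
  -- the least bound
  let μ : ℕ → ℕ := fun j => if hj : ∃ d, Q j d then Nat.find hj else 0
  have hex : ∀ᶠ j in (UU : Filter ℕ), ∃ d, Q j d := by
    have := hQ (rp K.top) (by rw [gm_rp]; exact K.top_not_mem)
    filter_upwards [this] with j hj using ⟨_, hj⟩
  have hμ : gm μ ∈ K.S := by
    by_contra hcon
    have h1 : gm (fun j => μ j - 1) ∉ K.S := by
      intro h1
      apply hcon
      have h2 : gm (fun j => μ j - 1) + 1 ∈ K.S := K.S.add_mem h1 K.S.one_mem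
      refine K.down _ h2 _ ?_
      rw [gm_one, gm_add, gm_le]
      exact Eventually.of_forall fun j => by omega
    have h2 := hQ _ h1
    have h3 : ∀ᶠ j in (UU : Filter ℕ), 0 < μ j := by
      have : (0 : NN) < gm μ := by
        by_contra h0
        exact hcon (K.down 0 K.S.zero_mem _ (not_lt.1 h0))
      rw [gm_zero, gm_lt] at this
      exact this
    have h4 : ∀ᶠ j in (UU : Filter ℕ), False := by
      filter_upwards [h2, h3, hex] with j h2 h3 hj
      have e : μ j = Nat.find hj := by simp only [μ, dif_pos hj]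
      have := Nat.find_min' hj h2
      omega
    exact not_ev_false h4
  refine ⟨Seg.mk' μ hμ, fun x hx => ?_⟩
  rw [Seg.lt_iff] at hx
  have h1 : ∀ᶠ j in (UU : Filter ℕ), ∃ y, y < μ j ∧
      φ.nf.eval (cons (μ j) (cons (rpM x j) (cons y (fun i => rpM (p i) j)))) := by
    filter_upwards [hex, hx] with j hj hx
    have e : μ j = Nat.find hj := by simp only [μ, dif_pos hj]
    rw [e]
    exact Nat.find_spec hj _ hx
  let g : ℕ → ℕ := fun j => if hj : ∃ y, y < μ j ∧
      φ.nf.eval (cons (μ j) (cons (rpM x j) (cons y (fun i => rpM (p i) j)))) then hj.choose else 0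
  have hg : ∀ᶠ j in (UU : Filter ℕ), g j < μ j ∧
      φ.nf.eval (cons (μ j) (cons (rpM x j) (cons (g j) (fun i => rpM (p i) j)))) := by
    filter_upwards [h1] with j hj
    simp only [g, dif_pos hj]
    exact hj.choose_spec
  have hm : gm g ∈ K.S := Seg.mem_of_le (Seg.mk' μ hμ) (by
    filter_upwards [hg, Seg.rp_mk μ hμ] with j h1 h2
    rw [h2]; exact h1.1.le)
  refine ⟨Seg.mk' g hm, ?_, ?_⟩
  · rw [Seg.lt_iff]
    filter_upwards [hg, Seg.rp_mk μ hμ, Seg.rp_mk g hm] with j h1 h2 h3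
    rw [h2, h3]; exact h1.1
  · rw [S1.eval_iff_nf (fun y => ⟨y + 1, Seg.lt_add_one y⟩)]
    refine ⟨Seg.mk' μ hμ, ?_⟩
    rw [Seg.los]
    filter_upwards [hg, Seg.rp_mk μ hμ, Seg.rp_mk g hm] with j h1 h2 h3
    rw [cons_rp, cons_rp, cons_rp, h2, h3]; exact h1.2

end seg

end Pool.Agent.PostBSigma
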