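import Mathlib

/-!
# Models of `PA⁻ + BΣ₁` and Turing reducibility in them: definitions

All formulas are formulas of the language `{0, 1, +, ·, <}`.  Variables are de Bruijn indices:
`var 0` is the innermost bound variable, and an assignment is a function `v : ℕ → M`.
-/

namespace Pool.Agent.PostBSigma

/-- Terms of the language `{0, 1, +, ·}`. -/
inductive Tm : Type
  | var : ℕ → Tm
  | zero : Tm
  | one : Tm
  | add : Tm → Tm → Tm
  | mul : Tm → Tm → Tm

/-- `Δ₀` formulas: built from `s = t` and `s < t` by negation, conjunction and the bounded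
quantifier `∀ x < t`, where the bound `t` does not mention the quantified variable. -/
inductive D0 : Type
  | eq : Tm → Tm → D0
  | lt : Tm → Tm → D0
  | neg : D0 → D0
  | and : D0 → D0 → D0
  | ball : Tm → D0 → D0

/-- `Σ₁` formulas: a block of existential quantifiers in front of a `Δ₀` formula. -/
inductive S1 : Type
  | base : D0 → S1
  | ex : S1 → S1

/-- The assignment giving `a` to variable `0` and `v n` to variable `n + 1`. -/
def cons {M : Type} (a : M) (v : ℕ → M) : ℕ → M
  | 0 => a
  | n + 1 => v n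

section eval

variable {M : Type} [CommSemiring M] [LinearOrder M]

/-- Value of a term. -/
def Tm.eval (v : ℕ → M) : Tm → M
  | .var n => v n
  | .zero => 0
  | .one => 1
  | .add s t => s.eval v + t.eval v
  | .mul s t => s.eval v * t.eval v

/-- Truth of a `Δ₀` formula in `M`. -/
def D0.eval : D0 → (ℕ → M) → Prop
  | .eq s t, v => s.eval v = t.eval v
  | .lt s t, v => s.eval v < t.eval v
  | .neg φ, v => ¬ φ.eval v
  | .and φ ψ, v => φ.eval v ∧ ψ.eval v
  | .ball t φ, v => ∀ a : M, a < t.eval v → φ.eval (cons a v)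

/-- Truth of a `Σ₁` formula in `M`. -/
def S1.eval : S1 → (ℕ → M) → Prop
  | .base φ, v => φ.eval v
  | .ex φ, v => ∃ a : M, φ.eval (cons a v)

end eval

section model

variable (M : Type) [CommSemiring M] [LinearOrder M]

variable {M} in
/-- Goedel's `β` relation: `r` is the remainder of `c` modulo `1 + (i + 1) d`, i.e. `r` is the
`i`-th entry of the sequence coded by `(c, d)`. -/
def Beta (c d i r : M) : Prop :=
  r < 1 + (i + 1) * d ∧ ∃ q : M, c = q * (1 + (i + 1) * d) + r

variable {M} in
/-- The graph of exponentiation: `y = 2 ^ x`, witnessed by a coded sequence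
`1, 2, 4, …, 2 ^ x`. -/
def Exp (x y : M) : Prop :=
  ∃ c d : M, Beta c d 0 1 ∧
    (∀ i : M, i < x → ∃ r : M, Beta c d i r ∧ Beta c d (i + 1) (r + r)) ∧ Beta c d x y

variable {M} in
/-- The `z`-th binary digit of `s` is `1`:
`s = (2 q + 1) 2 ^ z + r` with `r < 2 ^ z`.  The `M`-finite set coded by `s` is
`{z | Bit z s}`. -/
def Bit (z s : M) : Prop :=
  ∃ p q r : M, Exp z p ∧ r < p ∧ s = (q + q + 1) * p + r

/-- `M` is a model of `PA⁻ + IΔ₀ + exp + BΣ₁`.  (`M` is a commutative semiring with a linear
order; the remaining axioms of `PA⁻`, the theory of non-negative parts of discretely ordered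
commutative rings, are the first six fields.) -/
structure ModelBS1 : Prop where
  add_lt : ∀ x y z : M, x < y → x + z < y + z
  mul_lt : ∀ x y z : M, 0 < z → x < y → x * z < y * z
  sub : ∀ x y : M, x < y → ∃ z : M, x + z = y
  nonneg : ∀ x : M, 0 ≤ x
  zero_lt : (0 : M) < 1
  discrete : ∀ x : M, 0 < x → 1 ≤ x
  /-- induction for `Δ₀` formulas with parameters -/
  induction : ∀ (φ : D0) (p : ℕ → M), φ.eval (cons 0 p) →
    (∀ x : M, φ.eval (cons x p) → φ.eval (cons (x + 1) p)) → ∀ x : M, φ.eval (cons x p)
  /-- totality of exponentiation -/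
  exp : ∀ x : M, ∃ y : M, Exp x y
  /-- collection for `Σ₁` formulas with parameters -/
  collection : ∀ (φ : S1) (p : ℕ → M) (a : M),
    (∀ x : M, x < a → ∃ y : M, φ.eval (cons x (cons y p))) →
      ∃ b : M, ∀ x : M, x < a → ∃ y : M, y < b ∧ φ.eval (cons x (cons y p))

variable {M} in
/-- `C ⊆ M` is c.e.: `Σ₁`-definable in `M` with parameters. -/
def CE (C : Set M) : Prop :=
  ∃ (φ : S1) (p : ℕ → M), ∀ x : M, x ∈ C ↔ φ.eval (cons x p)

variable {M} in
/-- A set of quadruples is c.e.: `Σ₁`-definable in `M` with parameters. -/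
def CE4 (Φ : M → M → M → M → Prop) : Prop :=
  ∃ (φ : S1) (p : ℕ → M), ∀ x y u v : M,
    Φ x y u v ↔ φ.eval (cons x (cons y (cons u (cons v p))))

variable {M} in
/-- Turing reducibility `A ≤_T B` in `M`. -/
def TuringLE (A B : Set M) : Prop :=
  ∃ Φ : M → M → M → M → Prop, CE4 Φ ∧ ∀ x y : M,
    ((∀ z, Bit z x → z ∈ A) ∧ (∀ z, Bit z y → z ∉ A)) ↔
      ∃ u v : M, (∀ z, Bit z u → z ∈ B) ∧ (∀ z, Bit z v → z ∉ B) ∧ Φ x y u v

variable {M} in
/-- `A` is a complete c.e. set of `M`: it is c.e. and every c.e. set of `M` is Turing reducible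
to it.  (The halting set `∅'` of `M` is c.e. and every c.e. set of `M` is `≤_T ∅'`; hence this
says exactly that `A` is c.e. and `A ≡_T ∅'`.) -/
def CompleteCE (A : Set M) : Prop :=
  CE A ∧ ∀ C : Set M, CE C → TuringLE C A

/-- The subset `W_φ` of `M` defined without parameters by the `Σ₁` formula `φ`, whose free
variable is variable `0` (any other free variable is replaced by the constant `0`). -/
def W (φ : S1) : Set M := {x : M | φ.eval (cons x (fun _ => 0))}

end model

end Pool.Agent.PostBSigma
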