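import Pool.Agent.PostBSigma.Cut

/-!
# The main theorem
-/

set_option linter.unusedSectionVars false

namespace Pool.Agent.PostBSigma

open Filter

/-! ### Models of `BΣ₁` among segments -/

section seg

variable {K : Seg}

theorem Seg.rp_two (x : K.M) : ∀ᶠ j in (UU : Filter ℕ), rpM (x + x) j = rpM x j + rpM x j :=
  Seg.rp_add x x

/-- the segment is closed under exponentiation, with codes -/
def Seg.ExpClosed (K : Seg) : Prop :=
  ∀ x : K.M, ∃ s : K.M, ∀ᶠ j in (UU : Filter ℕ), EB (rpM x j) (rpM s j)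

theorem Seg.code_iff (c d x y : K.M) :
    Code c d x y ↔ ∀ᶠ j in (UU : Filter ℕ), Code (rpM c j) (rpM d j) (rpM x j) (rpM y j) := by
  have h := codeF_eval (M := K.M) (cons c (cons d (cons x (cons y (fun _ => 0)))))
  simp only [cons_zero, cons_succ] at h
  rw [← h, Seg.los]
  refine eventually_congr (Eventually.of_forall fun j => ?_)
  rw [codeF_eval]
  rfl

theorem Seg.exp_iff (hK : K.ExpClosed) (x y : K.M) :
    Exp x y ↔ ∀ᶠ j in (UU : Filter ℕ), rpM y j = 2 ^ (rpM x j) := by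
  constructor
  · rintro ⟨c, d, h⟩
    have h' := (Seg.code_iff c d x y).1 h
    filter_upwards [h'] with j hj using code_nat hj
  · intro h
    obtain ⟨s, hs⟩ := hK x
    classical
    have hs' : ∀ᶠ j in (UU : Filter ℕ), ∃ cd : ℕ × ℕ, cd.1 < rpM s j ∧ cd.2 < rpM s j ∧
        Code cd.1 cd.2 (rpM x j) (rpM y j) := by
      filter_upwards [hs, h] with j ⟨c, hc, d, hd, p, hp, hco⟩ h2
      refine ⟨(c, d), hc, hd, ?_⟩
      rw [h2, ← code_nat hco]; exact hco
    let f : ℕ → ℕ × ℕ := fun j => if hj : ∃ cd : ℕ × ℕ, cd.1 < rpM s j ∧ cd.2 < rpM s j ∧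
        Code cd.1 cd.2 (rpM x j) (rpM y j) then hj.choose else (0, 0)
    have hf : ∀ᶠ j in (UU : Filter ℕ), (f j).1 < rpM s j ∧ (f j).2 < rpM s j ∧
        Code (f j).1 (f j).2 (rpM x j) (rpM y j) := by
      filter_upwards [hs'] with j hj
      simp only [f, dif_pos hj]
      exact hj.choose_spec
    have hc : gm (fun j => (f j).1) ∈ K.S := Seg.mem_of_le s (by
      filter_upwards [hf] with j hj using hj.1.le)
    have hd : gm (fun j => (f j).2) ∈ K.S := Seg.mem_of_le s (by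
      filter_upwards [hf] with j hj using hj.2.1.le)
    refine ⟨Seg.mk' _ hc, Seg.mk' _ hd, ?_⟩
    show Code _ _ _ _
    rw [Seg.code_iff]
    filter_upwards [hf, Seg.rp_mk _ hc, Seg.rp_mk _ hd] with j h1 h2 h3
    rw [h2, h3]; exact h1.2.2

theorem Seg.exists_exp (hK : K.ExpClosed) (x : K.M) :
    ∃ y : K.M, ∀ᶠ j in (UU : Filter ℕ), rpM y j = 2 ^ (rpM x j) := by
  obtain ⟨s, hs⟩ := hK x
  have hm : gm (fun j => 2 ^ (rpM x j)) ∈ K.S := Seg.mem_of_le s (by
    filter_upwards [hs] with j hj using hj.pow_lt.le)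
  exact ⟨Seg.mk' _ hm, Seg.rp_mk _ hm⟩

theorem Seg.modelBS1 (hK : K.ExpClosed) : ModelBS1 K.M where
  add_lt x y z h := add_lt_add_left h z
  mul_lt x y z hz h := mul_lt_mul_of_pos_right h hz
  sub x y h := by
    obtain ⟨c, hc⟩ := exists_add_of_le h.le
    exact ⟨c, hc.symm⟩
  nonneg x := zero_le
  zero_lt := zero_lt_one
  discrete x h := by
    rw [Seg.le_iff]
    rw [Seg.lt_iff] at h
    filter_upwards [h, Seg.rp_zero (K := K), Seg.rp_one (K := K)] with j h1 h2 h3
    omega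
  induction φ p h0 h x := Seg.induction φ p h0 h x
  exp x := by
    obtain ⟨y, hy⟩ := Seg.exists_exp hK x
    exact ⟨y, (Seg.exp_iff hK x y).2 hy⟩
  collection φ p a h := Seg.collection φ p a h

theorem Seg.bit_iff (hK : K.ExpClosed) (z s : K.M) :
    Bit z s ↔ ∀ᶠ j in (UU : Filter ℕ), (rpM s j).testBit (rpM z j) = true := by
  constructor
  · rintro ⟨p, q, r, hp, hr, hs⟩
    rw [Seg.exp_iff hK] at hp
    rw [Seg.lt_iff] at hr
    rw [Seg.eq_iff] at hs
    filter_upwards [hp, hr, hs, Seg.rp_add ((q + q + 1) * p) r, Seg.rp_mul (q + q + 1) p,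
      Seg.rp_add (q + q) 1, Seg.rp_add q q, Seg.rp_one (K := K)] with j h1 h2 h3 h4 h5 h6 h7 h8
    rw [← bit_nat]
    refine ⟨rpM p j, rpM q j, rpM r j, exp_nat.2 h1, h2, ?_⟩
    rw [h3, h4, h5, h6, h7, h8]
  · intro h
    obtain ⟨p, hp⟩ := Seg.exists_exp hK z
    have hq : gm (fun j => rpM s j / 2 ^ rpM z j / 2) ∈ K.S :=
      Seg.mem_of_le s (Eventually.of_forall fun j =>
        (Nat.div_le_self _ _).trans (Nat.div_le_self _ _))
    have hr : gm (fun j => rpM s j % 2 ^ rpM z j) ∈ K.S :=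
      Seg.mem_of_le s (Eventually.of_forall fun j => Nat.mod_le _ _)
    refine ⟨p, Seg.mk' _ hq, Seg.mk' _ hr, (Seg.exp_iff hK z p).2 hp, ?_, ?_⟩
    · rw [Seg.lt_iff]
      filter_upwards [hp, Seg.rp_mk _ hr] with j h1 h2
      rw [h1, h2]; exact Nat.mod_lt _ (by positivity)
    · rw [Seg.eq_iff]
      set q : K.M := Seg.mk' _ hq
      set r : K.M := Seg.mk' _ hr
      filter_upwards [h, hp, Seg.rp_mk _ hq, Seg.rp_mk _ hr, Seg.rp_add ((q + q + 1) * p) r,
        Seg.rp_mul (q + q + 1) p, Seg.rp_add (q + q) 1, Seg.rp_add q q, Seg.rp_one (K := K)]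
        with j h0 h1 h2 h3 h4 h5 h6 h7 h8
      rw [h4, h5, h6, h7, h8, h1]
      have e2 : rpM q j = rpM s j / 2 ^ rpM z j / 2 := h2
      have e3 : rpM r j = rpM s j % 2 ^ rpM z j := h3
      rw [e2, e3]
      rw [Nat.testBit_eq_decide_div_mod_eq, decide_eq_true_iff] at h0
      have : rpM s j / 2 ^ rpM z j / 2 + rpM s j / 2 ^ rpM z j / 2 + 1 =
        rpM s j / 2 ^ rpM z j := by omega
      rw [this]
      exact (Nat.div_add_mod' _ _).symm

theorem Seg.nbit_iff (hK : K.ExpClosed) (z s : K.M) :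
    NBit z s ↔ ∀ᶠ j in (UU : Filter ℕ), (rpM s j).testBit (rpM z j) = false := by
  constructor
  · rintro ⟨p, q, r, hp, hr, hs⟩
    rw [Seg.exp_iff hK] at hp
    rw [Seg.lt_iff] at hr
    rw [Seg.eq_iff] at hs
    filter_upwards [hp, hr, hs, Seg.rp_add ((q + q) * p) r, Seg.rp_mul (q + q) p,
      Seg.rp_add q q] with j h1 h2 h3 h4 h5 h6
    rw [← nbit_nat]
    refine ⟨rpM p j, rpM q j, rpM r j, exp_nat.2 h1, h2, ?_⟩
    rw [h3, h4, h5, h6]
  · intro h
    obtain ⟨p, hp⟩ := Seg.exists_exp hK z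
    have hq : gm (fun j => rpM s j / 2 ^ rpM z j / 2) ∈ K.S :=
      Seg.mem_of_le s (Eventually.of_forall fun j =>
        (Nat.div_le_self _ _).trans (Nat.div_le_self _ _))
    have hr : gm (fun j => rpM s j % 2 ^ rpM z j) ∈ K.S :=
      Seg.mem_of_le s (Eventually.of_forall fun j => Nat.mod_le _ _)
    refine ⟨p, Seg.mk' _ hq, Seg.mk' _ hr, (Seg.exp_iff hK z p).2 hp, ?_, ?_⟩
    · rw [Seg.lt_iff]
      filter_upwards [hp, Seg.rp_mk _ hr] with j h1 h2
      rw [h1, h2]; exact Nat.mod_lt _ (by positivity)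
    · rw [Seg.eq_iff]
      set q : K.M := Seg.mk' _ hq
      set r : K.M := Seg.mk' _ hr
      filter_upwards [h, hp, Seg.rp_mk _ hq, Seg.rp_mk _ hr, Seg.rp_add ((q + q) * p) r,
        Seg.rp_mul (q + q) p, Seg.rp_add q q]
        with j h0 h1 h2 h3 h4 h5 h6
      rw [h4, h5, h6, h1]
      have e2 : rpM q j = rpM s j / 2 ^ rpM z j / 2 := h2
      have e3 : rpM r j = rpM s j % 2 ^ rpM z j := h3
      rw [e2, e3]
      rw [Nat.testBit_eq_decide_div_mod_eq, decide_eq_false_iff_not] at h0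
      have : rpM s j / 2 ^ rpM z j / 2 + rpM s j / 2 ^ rpM z j / 2 =
        rpM s j / 2 ^ rpM z j := by omega
      rw [this]
      exact (Nat.div_add_mod' _ _).symm

theorem Seg.not_bit_iff (hK : K.ExpClosed) (z s : K.M) : ¬ Bit z s ↔ NBit z s := by
  rw [Seg.bit_iff hK, Seg.nbit_iff hK, ← Ultrafilter.eventually_not]
  simp

theorem Seg.bit_lt (hK : K.ExpClosed) {z s : K.M} (h : Bit z s) : z < s := by
  rw [Seg.bit_iff hK] at h
  rw [Seg.lt_iff]
  filter_upwards [h] with j hj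
  exact lt_of_lt_of_le Nat.lt_two_pow_self (Nat.ge_two_pow_of_testBit hj)

theorem Seg.ball {R : (ℕ → K.M) → Prop} (hR : SS R) (t : Tm) :
    SS (fun v => ∀ a, a < t.eval v → R (cons a v)) :=
  hR.ball (fun y => ⟨y + 1, Seg.lt_add_one y⟩) (fun φ p a h => Seg.collection φ p a h) t

/-- A set which is `Σ₁` and co-`Σ₁` in a segment is Turing reducible to every set. -/
theorem Seg.turingLE_of_delta (hK : K.ExpClosed) (A : Set K.M) (α β : S1) (P : ℕ → K.M)
    (hα : ∀ x, x ∈ A ↔ α.eval (cons x P)) (hβ : ∀ x, x ∉ A ↔ β.eval (cons x P))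
    (B : Set K.M) : TuringLE A B := by
  refine ⟨fun x y _ _ => (∀ z, z < x → (NBit z x ∨ α.eval (cons z P))) ∧
    (∀ z, z < y → (NBit z y ∨ β.eval (cons z P))), ?_, ?_⟩
  · -- environment `z :: x :: y :: u :: v :: P`
    have h1 : SS (fun w : ℕ → K.M => NBit (w 0) (w 1)) := SS.nbit
    have h2 : SS (fun w : ℕ → K.M => NBit (w 0) (w 2)) :=
      (SS.nbit (M := K.M)).rename (fun | 0 => 0 | n + 1 => n + 2)
    have h3 : SS (fun w : ℕ → K.M => α.eval (fun n => w ((fun | 0 => 0 | n + 1 => n + 5) n))) :=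
      SS.rename (R := fun w => α.eval w) ⟨α, fun _ => Iff.rfl⟩ (fun | 0 => 0 | n + 1 => n + 5)
    have h4 : SS (fun w : ℕ → K.M => β.eval (fun n => w ((fun | 0 => 0 | n + 1 => n + 5) n))) :=
      SS.rename (R := fun w => β.eval w) ⟨β, fun _ => Iff.rfl⟩ (fun | 0 => 0 | n + 1 => n + 5)
    have h := (Seg.ball (h1.or h3) (.var 0)).and (Seg.ball (h2.or h4) (.var 1))
    obtain ⟨χ, hχ⟩ := h
    refine ⟨χ, P, fun x y u v => ?_⟩
    rw [← hχ]
    have e : ∀ z : K.M, (fun n => cons z (cons x (cons y (cons u (cons v P))))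
        ((fun | 0 => 0 | n + 1 => n + 5) n)) = cons z P := by
      intro z; funext n; cases n <;> rfl
    simp only [e]
    exact Iff.rfl
  · intro x y
    have key : ((∀ z, Bit z x → z ∈ A) ∧ (∀ z, Bit z y → z ∉ A)) ↔
        ((∀ z, z < x → (NBit z x ∨ α.eval (cons z P))) ∧
          (∀ z, z < y → (NBit z y ∨ β.eval (cons z P)))) := by
      refine and_congr ?_ ?_
      · constructor
        · intro h z _
          by_cases hb : Bit z x
          · exact Or.inr ((hα z).1 (h z hb))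
          · exact Or.inl ((Seg.not_bit_iff hK z x).1 hb)
        · intro h z hb
          rcases h z (Seg.bit_lt hK hb) with h | h
          · exact absurd hb ((Seg.not_bit_iff hK z x).2 h)
          · exact (hα z).2 h
      · constructor
        · intro h z _
          by_cases hb : Bit z y
          · exact Or.inr ((hβ z).1 (h z hb))
          · exact Or.inl ((Seg.not_bit_iff hK z y).1 hb)
        · intro h z hb
          rcases h z (Seg.bit_lt hK hb) with h | h
          · exact absurd hb ((Seg.not_bit_iff hK z y).2 h)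
          · exact (hβ z).2 h
    rw [key]
    have h0 : ∀ z : K.M, ¬ Bit z 0 := by
      intro z hz
      exact absurd (Seg.bit_lt hK hz) (not_lt.2 (zero_le))
    constructor
    · intro h
      exact ⟨0, 0, fun z hz => absurd hz (h0 z), fun z hz => absurd hz (h0 z), h⟩
    · rintro ⟨_, _, _, _, h⟩
      exact h

end seg

/-! ### The chain -/

theorem RR.chain {φ ψ : S1} {P : ℕ → ℕ} {k m t : ℕ} (h : RR φ ψ P k m t) :
    ∃ τ : ℕ → ℕ, τ 0 = m ∧ τ k = t ∧ ∀ i, i < k → LL φ P (τ i) (τ (i + 1)) ∧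
      Sm ψ P m (τ (i + 1)) := by
  induction k generalizing t with
  | zero => exact ⟨fun _ => m, rfl, h.symm, fun i hi => absurd hi (by omega)⟩
  | succ k ih =>
    obtain ⟨t', h1, h2, h3⟩ := h
    obtain ⟨τ, h4, h5, h6⟩ := ih h1
    refine ⟨fun i => if i ≤ k then τ i else t, by simp [h4], by simp, fun i hi => ?_⟩
    rcases Nat.lt_succ_iff_lt_or_eq.1 hi with hi | rfl
    · have e1 : i ≤ k := by omega
      have e2 : i + 1 ≤ k := by omega
      simp only [e1, e2, if_true]
      exact h6 i hi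
    · simp only [le_refl, if_true, Nat.not_succ_le_self, if_false, h5]
      exact ⟨h2, h3⟩

/-- A code `a` for the elements entering at the stages of a chain. -/
theorem exists_data (φ ψ : S1) (P : ℕ → ℕ)
    (h : ¬ TuringLE {x : ℕ | ψ.eval (cons x P)} {x : ℕ | φ.eval (cons x P)}) (k : ℕ) :
    ∃ (a : ℕ) (τ : ℕ → ℕ), a < 2 ^ (τ 0) ∧ (∀ i, i < k → LL φ P (τ i) (τ (i + 1))) ∧
      ∀ t, (∃ z, Bit z a ∧ Ent ψ P z t) ↔ ∃ i, i < k ∧ t = τ (i + 1) := by
  obtain ⟨m, _, t, hR⟩ := exists_chain φ ψ P h k 0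
  obtain ⟨τ, h0, _, hτ⟩ := hR.chain
  obtain ⟨a, ha⟩ := exists_bits m (fun z => ∃ i, i < k ∧ Ent ψ P z (τ (i + 1)))
  refine ⟨a, τ, ?_, fun i hi => (hτ i hi).1, fun t => ?_⟩
  · rw [h0]
    refine Nat.lt_pow_two_of_testBit a fun i hi => ?_
    have := ha i
    rw [bit_nat] at this
    by_contra hcon
    have h2 := this.1 (by simpa using hcon)
    omega
  · constructor
    · rintro ⟨z, hz, hE⟩
      obtain ⟨_, i, hi, hE'⟩ := (ha z).1 hz
      refine ⟨i, hi, ?_⟩
      rcases lt_trichotomy t (τ (i + 1)) with h | h | h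
      · exact absurd hE.1 (hE'.2 _ h)
      · exact h
      · exact absurd hE'.1 (hE.2 _ h)
    · rintro ⟨i, hi, rfl⟩
      obtain ⟨z, hz, hE⟩ := (hτ i hi).2
      exact ⟨z, (ha z).2 ⟨hz, i, hi, hE⟩, hE⟩

/-! ### The cut -/

/-- the data of the construction -/
structure Data (φ ψ : S1) (P : ℕ → ℕ) where
  a : ℕ → ℕ
  τ : ℕ → ℕ → ℕ
  ha : ∀ j, a j < 2 ^ (τ j 0)
  hτ : ∀ j i, i < j → LL φ P (τ j i) (τ j (i + 1))
  hS : ∀ j t, (∃ z, Bit z (a j) ∧ Ent ψ P z t) ↔ ∃ i, i < j ∧ t = τ j (i + 1)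

section data

variable {φ ψ : S1} {P : ℕ → ℕ} (D : Data φ ψ P)

theorem Data.step {j i : ℕ} (h : i < j) : 2 ^ (D.τ j i) < D.τ j (i + 1) := (D.hτ j i h).1.pow_lt

theorem Data.step' {j i : ℕ} (h : i < j) : D.τ j i < D.τ j (i + 1) :=
  lt_trans Nat.lt_two_pow_self (D.step h)

theorem Data.mono {j i i' : ℕ} (h : i ≤ i') (h' : i' ≤ j) : D.τ j i ≤ D.τ j i' := by
  induction i', h using Nat.le_induction with
  | base => exact le_rfl
  | succ n hn ih => exact (ih (by omega)).trans (D.step' (by omega)).le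

theorem Data.strict {j i i' : ℕ} (h : i < i') (h' : i' ≤ j) : D.τ j i < D.τ j i' :=
  lt_of_lt_of_le (D.step' (by omega)) (D.mono h h')

/-- the cofinal sequence -/
noncomputable def Data.tt (i : ℕ) : NN := gm (fun j => D.τ j i)

theorem Data.tt_lt {i i' : ℕ} (h : i < i') : D.tt i < D.tt i' := by
  rw [Data.tt, Data.tt, gm_lt]
  filter_upwards [eventually_gt i'] with j hj
  exact D.strict h hj.le

theorem Data.tt_le {i i' : ℕ} (h : i ≤ i') : D.tt i ≤ D.tt i' := by
  rcases Nat.eq_or_lt_of_le h with rfl | h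
  · exact le_rfl
  · exact (D.tt_lt h).le

theorem two_mul_le_pow (t : ℕ) : t + t ≤ 2 ^ t + 1 := by
  induction t with
  | zero => simp
  | succ t ih =>
    have : 2 ^ (t + 1) = 2 ^ t + 2 ^ t := by ring
    have h2 : 1 ≤ 2 ^ t := Nat.one_le_two_pow
    rcases Nat.eq_zero_or_pos t with rfl | ht
    · simp
    · have h3 : 2 ^ 1 ≤ 2 ^ t := Nat.pow_le_pow_right (by norm_num) ht
      omega

theorem Data.closure {j i x y : ℕ} (h : i + 1 < j) (hx : x < D.τ j i) (hy : y < D.τ j i) :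
    x + y < D.τ j (i + 2) ∧ x * y < D.τ j (i + 2) := by
  have h1 := D.step (j := j) (i := i) (by omega)
  have h2 := D.step (j := j) (i := i + 1) (by omega)
  have h3 := two_mul_le_pow (D.τ j i)
  have h4 : D.τ j (i + 1) < 2 ^ (D.τ j (i + 1)) := Nat.lt_two_pow_self
  have h2' : 2 ^ D.τ j (i + 1) < D.τ j (i + 2) := h2
  refine ⟨by omega, ?_⟩
  have h5 : x * y ≤ 2 ^ (D.τ j i) * 2 ^ (D.τ j i) :=
    Nat.mul_le_mul (hx.trans Nat.lt_two_pow_self).le (hy.trans Nat.lt_two_pow_self).le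
  rw [← pow_add] at h5
  have h6 : 2 ^ (D.τ j i + D.τ j i) ≤ 2 ^ (D.τ j (i + 1)) :=
    Nat.pow_le_pow_right (by norm_num) (by omega)
  omega

theorem Data.pos (i : ℕ) : (0 : NN) < D.tt (i + 1) := by
  rw [gm_zero, Data.tt, gm_lt]
  filter_upwards [eventually_gt i] with j hj
  have := D.step' (j := j) (i := i) hj
  omega

theorem Data.closed {x y : NN} {i : ℕ} (hx : x < D.tt i) (hy : y < D.tt i) :
    x + y < D.tt (i + 2) ∧ x * y < D.tt (i + 2) := by
  rw [← gm_rp x, Data.tt, gm_lt] at hx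
  rw [← gm_rp y, Data.tt, gm_lt] at hy
  rw [← gm_rp x, ← gm_rp y, gm_add, gm_mul, Data.tt, gm_lt, gm_lt]
  constructor
  · filter_upwards [hx, hy, eventually_gt (i + 1)] with j h1 h2 h3
    exact (D.closure h3 h1 h2).1
  · filter_upwards [hx, hy, eventually_gt (i + 1)] with j h1 h2 h3
    exact (D.closure h3 h1 h2).2

/-- the cut `sup_i t_i` -/
noncomputable def Data.seg : Seg where
  S :=
    { carrier := {x | ∃ i, x < D.tt i}
      mul_mem' := by
        rintro x y ⟨i, hi⟩ ⟨i', hi'⟩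
        exact ⟨_, (D.closed (lt_of_lt_of_le hi (D.tt_le (le_max_left i i')))
          (lt_of_lt_of_le hi' (D.tt_le (le_max_right i i')))).2⟩
      one_mem' := ⟨1, by
        rw [gm_one, Data.tt, gm_lt]
        filter_upwards [eventually_gt 0] with j hj
        have := D.step (j := j) (i := 0) hj
        have h2 : 1 ≤ 2 ^ (D.τ j 0) := Nat.one_le_two_pow
        simp only [zero_add] at this
        omega⟩
      add_mem' := by
        rintro x y ⟨i, hi⟩ ⟨i', hi'⟩
        exact ⟨_, (D.closed (lt_of_lt_of_le hi (D.tt_le (le_max_left i i')))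
          (lt_of_lt_of_le hi' (D.tt_le (le_max_right i i')))).1⟩
      zero_mem' := ⟨1, D.pos 0⟩ }
  down := by
    rintro x ⟨i, hi⟩ y hy
    exact ⟨i, lt_of_le_of_lt hy hi⟩
  top := gm (fun j => D.τ j j)
  top_not_mem := by
    rintro ⟨i, hi⟩
    rw [Data.tt, gm_lt] at hi
    have : ∀ᶠ j in (UU : Filter ℕ), False := by
      filter_upwards [hi, eventually_gt i] with j h1 h2
      have := D.mono (j := j) h2.le le_rfl
      omega
    exact not_ev_false this

theorem Data.mem_iff (x : NN) : x ∈ D.seg.S ↔ ∃ i, x < D.tt i := Iff.rfl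

theorem Data.tt_mem (i : ℕ) : D.tt i ∈ D.seg.S := ⟨i + 1, D.tt_lt (Nat.lt_succ_self i)⟩

theorem Data.bound (x : D.seg.M) : ∃ i, ∀ᶠ j in (UU : Filter ℕ), rpM x j < D.τ j i := by
  obtain ⟨i, hi⟩ := (D.mem_iff x.1).1 x.2
  refine ⟨i, ?_⟩
  rw [← gm_rpM x] at hi
  exact gm_lt.1 hi

theorem Data.expClosed : D.seg.ExpClosed := by
  intro x
  obtain ⟨i, hi⟩ := D.bound x
  refine ⟨Seg.mk' _ (D.tt_mem (i + 1)), ?_⟩
  filter_upwards [hi, eventually_gt i, Seg.rp_mk _ (D.tt_mem (i + 1))] with j h1 h2 h3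
  rw [h3]
  exact (D.hτ j i h2).1.mono h1.le le_rfl

/-- the parameter coding the chain -/
theorem Data.a_mem : gm D.a ∈ D.seg.S := by
  refine ⟨1, ?_⟩
  rw [Data.tt, gm_lt]
  filter_upwards [eventually_gt 0] with j hj
  have := D.step (j := j) (i := 0) hj
  have h2 := D.ha j
  simp only [zero_add] at this
  omega

noncomputable def Data.aM : D.seg.M := Seg.mk' _ D.a_mem

/-- the parameters, as elements of the cut -/
noncomputable def Data.PM : ℕ → D.seg.M := fun n => ((P n : ℕ) : D.seg.M)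

theorem Data.rp_PM (n : ℕ) : ∀ᶠ j in (UU : Filter ℕ), rpM (D.PM n) j = P n := Seg.rp_cast _

end data

/-- bound for the variables of a term / formula -/
def Tm.vb : Tm → ℕ
  | .var n => n + 1
  | .zero => 0
  | .one => 0
  | .add s t => max s.vb t.vb
  | .mul s t => max s.vb t.vb

def D0.vb : D0 → ℕ
  | .eq s t => max s.vb t.vb
  | .lt s t => max s.vb t.vb
  | .neg φ => φ.vb
  | .and φ ψ => max φ.vb ψ.vb
  | .ball t φ => max t.vb φ.vb

theorem Tm.eval_agree {M : Type} [CommSemiring M] [LinearOrder M] (t : Tm) {v w : ℕ → M}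
    (h : ∀ n, n < t.vb → v n = w n) : t.eval v = t.eval w := by
  induction t with
  | var n => exact h n (by simp [Tm.vb])
  | zero => rfl
  | one => rfl
  | add s t hs ht =>
    simp only [Tm.vb] at h
    simp only [Tm.eval]
    rw [hs fun n hn => h n (by omega), ht fun n hn => h n (by omega)]
  | mul s t hs ht =>
    simp only [Tm.vb] at h
    simp only [Tm.eval]
    rw [hs fun n hn => h n (by omega), ht fun n hn => h n (by omega)]

theorem D0.eval_agree {M : Type} [CommSemiring M] [LinearOrder M] (φ : D0) {v w : ℕ → M}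
    (h : ∀ n, n < φ.vb → v n = w n) : φ.eval v ↔ φ.eval w := by
  induction φ generalizing v w with
  | eq s t =>
    simp only [D0.vb] at h
    rw [D0.eval_eq, D0.eval_eq, Tm.eval_agree s fun n hn => h n (by omega),
      Tm.eval_agree t fun n hn => h n (by omega)]
  | lt s t =>
    simp only [D0.vb] at h
    rw [D0.eval_lt, D0.eval_lt, Tm.eval_agree s fun n hn => h n (by omega),
      Tm.eval_agree t fun n hn => h n (by omega)]
  | neg φ ih =>
    simp only [D0.vb] at h
    rw [D0.eval_neg, D0.eval_neg, ih h]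
  | and φ ψ ih₁ ih₂ =>
    simp only [D0.vb] at h
    rw [D0.eval_and, D0.eval_and, ih₁ fun n hn => h n (by omega), ih₂ fun n hn => h n (by omega)]
  | ball t φ ih =>
    simp only [D0.vb] at h
    rw [D0.eval_ball, D0.eval_ball, Tm.eval_agree t fun n hn => h n (by omega)]
    refine forall_congr' fun a => imp_congr_right fun _ => ih ?_
    intro n hn
    cases n with
    | zero => rfl
    | succ n => exact h n (by omega)

section data

variable {φ ψ : S1} {P : ℕ → ℕ} (D : Data φ ψ P)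

/-- Łoś with the standard parameters -/
theorem Data.los_PM (χ : D0) (x y : D.seg.M) :
    χ.eval (cons y (cons x D.PM)) ↔
      ∀ᶠ j in (UU : Filter ℕ), χ.eval (cons (rpM y j) (cons (rpM x j) P)) := by
  rw [Seg.los]
  have hP : ∀ n, ∀ᶠ j in (UU : Filter ℕ), ∀ i, i < n → rpM (D.PM i) j = P i := by
    intro n
    induction n with
    | zero => exact Eventually.of_forall fun j i hi => absurd hi (by omega)
    | succ n ih =>
      filter_upwards [ih, D.rp_PM n] with j h1 h2 i hi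
      rcases Nat.lt_succ_iff_lt_or_eq.1 hi with h | rfl
      · exact h1 i h
      · exact h2
  refine eventually_congr ?_
  filter_upwards [hP χ.vb] with j hj
  rw [cons_rp, cons_rp]
  refine χ.eval_agree ?_
  intro n hn
  rcases n with _ | _ | n
  · rfl
  · rfl
  · exact hj n (by omega)

theorem Data.stage_iff (χ : S1) (x s : D.seg.M) :
    Stage χ D.PM x s ↔ ∀ᶠ j in (UU : Filter ℕ), Stage χ P (rpM x j) (rpM s j) :=
  D.los_PM χ.nf x s

theorem Data.ent_iff (χ : S1) (n t : D.seg.M) :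
    Ent χ D.PM n t ↔ ∀ᶠ j in (UU : Filter ℕ), Ent χ P (rpM n j) (rpM t j) := by
  have h1 : Ent χ D.PM n t ↔ (entF χ).eval (cons n (cons t D.PM)) :=
    (entF_eval χ (cons n (cons t D.PM))).symm
  rw [h1, D.los_PM]
  refine eventually_congr (Eventually.of_forall fun j => ?_)
  exact entF_eval χ _

/-- the stages of the chain inside the cut -/
def Data.SA (t : D.seg.M) : Prop := ∃ z : D.seg.M, Bit z D.aM ∧ Ent ψ D.PM z t

theorem Data.SA_iff (t : D.seg.M) :
    D.SA t ↔ ∀ᶠ j in (UU : Filter ℕ), ∃ i, i < j ∧ rpM t j = D.τ j (i + 1) := by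
  constructor
  · rintro ⟨z, hz, hE⟩
    rw [Seg.bit_iff D.expClosed] at hz
    rw [D.ent_iff] at hE
    filter_upwards [hz, hE, Seg.rp_mk _ D.a_mem] with j h1 h2 h3
    rw [← D.hS]
    refine ⟨_, ?_, h2⟩
    rw [bit_nat, ← h3]; exact h1
  · intro h
    have h' : ∀ᶠ j in (UU : Filter ℕ), ∃ z, Bit z (D.a j) ∧ Ent ψ P z (rpM t j) := by
      filter_upwards [h] with j hj
      rw [D.hS]; exact hj
    classical
    let f : ℕ → ℕ := fun j => if hj : ∃ z, Bit z (D.a j) ∧ Ent ψ P z (rpM t j)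
      then hj.choose else 0
    have hf : ∀ᶠ j in (UU : Filter ℕ), Bit (f j) (D.a j) ∧ Ent ψ P (f j) (rpM t j) := by
      filter_upwards [h'] with j hj
      simp only [f, dif_pos hj]
      exact hj.choose_spec
    have hm : gm f ∈ D.seg.S := Seg.mem_of_le D.aM (by
      filter_upwards [hf, Seg.rp_mk _ D.a_mem] with j h1 h2
      have e : rpM D.aM j = D.a j := h2
      rw [e]
      have h3 := h1.1
      rw [bit_nat] at h3
      exact (lt_of_lt_of_le Nat.lt_two_pow_self (Nat.ge_two_pow_of_testBit h3)).le)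
    refine ⟨Seg.mk' f hm, ?_, ?_⟩
    · rw [Seg.bit_iff D.expClosed]
      filter_upwards [hf, Seg.rp_mk _ hm, Seg.rp_mk _ D.a_mem] with j h1 h2 h3
      have e : rpM D.aM j = D.a j := h3
      rw [h2, e, ← bit_nat]; exact h1.1
    · rw [D.ent_iff]
      filter_upwards [hf, Seg.rp_mk _ hm] with j h1 h2
      rw [h2]; exact h1.2

/-- The set defined by `φ` in the cut is co-`Σ₁`. -/
theorem Data.compl_iff (x : D.seg.M) :
    (¬ φ.eval (cons x D.PM)) ↔
      ∃ t t' : D.seg.M, x < t ∧ t < t' ∧ D.SA t ∧ D.SA t' ∧ ¬ Stage φ D.PM x t' := by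
  have hs : ∀ y : D.seg.M, ∃ z, y < z := fun y => ⟨y + 1, Seg.lt_add_one y⟩
  constructor
  · intro h
    obtain ⟨i, hi⟩ := D.bound x
    refine ⟨Seg.mk' _ (D.tt_mem (i + 1)), Seg.mk' _ (D.tt_mem (i + 2)), ?_, ?_, ?_, ?_, ?_⟩
    · rw [Seg.lt_iff]
      filter_upwards [hi, Seg.rp_mk _ (D.tt_mem (i + 1)), eventually_gt i] with j h1 h2 h3
      rw [h2]; exact h1.trans (D.step' h3)
    · rw [Seg.lt_iff]
      filter_upwards [Seg.rp_mk _ (D.tt_mem (i + 1)), Seg.rp_mk _ (D.tt_mem (i + 2)),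
        eventually_gt (i + 1)] with j h1 h2 h3
      rw [h1, h2]; exact D.step' h3
    · rw [D.SA_iff]
      filter_upwards [Seg.rp_mk _ (D.tt_mem (i + 1)), eventually_gt i] with j h1 h2
      exact ⟨i, h2, h1⟩
    · rw [D.SA_iff]
      filter_upwards [Seg.rp_mk _ (D.tt_mem (i + 2)), eventually_gt (i + 1)] with j h1 h2
      exact ⟨i + 1, h2, h1⟩
    · intro hst
      apply h
      rw [S1.eval_iff_nf hs]
      exact ⟨_, hst⟩
  · rintro ⟨t, t', hxt, htt', hSt, hSt', hn⟩ hx
    rw [S1.eval_iff_nf hs] at hx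
    obtain ⟨b, hb⟩ := hx
    have hb' : Stage φ D.PM x b := hb
    rw [D.stage_iff] at hb'
    rw [D.stage_iff, ← Ultrafilter.eventually_not] at hn
    rw [D.SA_iff] at hSt hSt'
    rw [Seg.lt_iff] at hxt htt'
    have : ∀ᶠ j in (UU : Filter ℕ), False := by
      filter_upwards [hb', hn, hSt, hSt', hxt, htt'] with j h1 h2 h3 h4 h5 h6
      obtain ⟨i, hi, e⟩ := h3
      obtain ⟨i', hi', e'⟩ := h4
      have hlt : i < i' := by
        by_contra hcon
        have := D.mono (j := j) (i := i' + 1) (i' := i + 1) (by omega) (by omega)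
        omega
      have hL := D.hτ j i' hi'
      apply h2
      rw [e']
      refine hL.2 _ ?_ ⟨_, h1⟩
      have := D.mono (j := j) (i := i + 1) (i' := i') (by omega) (by omega)
      omega
    exact not_ev_false this

theorem Data.turingLE (B : Set D.seg.M) :
    TuringLE {x : D.seg.M | φ.eval (cons x D.PM)} B := by
  -- environment `x :: a :: P`
  have h1 : SS (fun w : ℕ → D.seg.M => w 2 < w 1) := (DD.lt_var 2 1).ss
  have h2 : SS (fun w : ℕ → D.seg.M => w 1 < w 0) := (DD.lt_var 1 0).ss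
  -- `SA`, environment `z :: t' :: t :: x :: a :: P`
  have h3 : SS (fun w : ℕ → D.seg.M => Bit (w 0) (w 4)) :=
    (SS.bit (M := D.seg.M)).rename (fun | 0 => 0 | n + 1 => n + 4)
  have h4 : SS (fun w : ℕ → D.seg.M => Ent ψ (fun n => w (n + 5)) (w 0) (w 2)) :=
    ((DD.ent (M := D.seg.M) ψ).ss.rename (fun | 0 => 0 | 1 => 2 | n + 2 => n + 5))
  have h5 : SS (fun w : ℕ → D.seg.M => Ent ψ (fun n => w (n + 5)) (w 0) (w 1)) :=
    ((DD.ent (M := D.seg.M) ψ).ss.rename (fun | 0 => 0 | 1 => 1 | n + 2 => n + 5))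
  have h6 : SS (fun w : ℕ → D.seg.M => ¬ Stage φ (fun n => w (n + 4)) (w 2) (w 0)) :=
    ((DD.stage (M := D.seg.M) φ).rename (fun | 0 => 2 | 1 => 0 | n + 2 => n + 4)).not.ss
  have h := (h1.and (h2.and ((h3.and h4).ex.and ((h3.and h5).ex.and h6)))).ex.ex
  obtain ⟨χ, hχ⟩ := h
  refine Seg.turingLE_of_delta D.expClosed _
    (φ.rename (fun | 0 => 0 | n + 1 => n + 2)) χ (cons D.aM D.PM) ?_ ?_ B
  · intro x
    rw [S1.eval_rename]
    have e : (fun n => cons x (cons D.aM D.PM) ((fun | 0 => 0 | n + 1 => n + 2) n)) =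
        cons x D.PM := by
      funext n; cases n <;> rfl
    rw [e]; rfl
  · intro x
    rw [← hχ]
    exact D.compl_iff x

end data

/-- **Core theorem.** For all `Σ₁` formulas `φ`, `ψ` and parameters `P` in `ℕ`, if the set
defined by `ψ` in `ℕ` is not Turing reducible to the one defined by `φ`, then `φ` defines in some
model of `BΣ₁` a computable set. -/
theorem core (φ ψ : S1) (pφ pψ : ℕ → ℕ)
    (h : ¬ TuringLE {x : ℕ | ψ.eval (cons x pψ)} {x : ℕ | φ.eval (cons x pφ)}) :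
    ∃ (M : Type) (_ : CommSemiring M) (_ : LinearOrder M), ModelBS1 M ∧
      ∀ B : Set M, TuringLE {x : M | φ.eval (cons x (fun n => ((pφ n : ℕ) : M)))} B := by
  -- merge the parameters
  let P : ℕ → ℕ := fun n => if n % 2 = 0 then pφ (n / 2) else pψ (n / 2)
  let fφ : ℕ → ℕ := fun | 0 => 0 | n + 1 => 2 * n + 1
  let fψ : ℕ → ℕ := fun | 0 => 0 | n + 1 => 2 * n + 2
  have e1 : ∀ x, (fun n => cons x P (fφ n)) = cons x pφ := by
    intro x; funext n
    cases n with
    | zero => rfl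
    | succ n =>
      show P (2 * n) = pφ n
      simp [P]
  have e2 : ∀ x, (fun n => cons x P (fψ n)) = cons x pψ := by
    intro x; funext n
    cases n with
    | zero => rfl
    | succ n =>
      show P (2 * n + 1) = pψ n
      have h1 : (2 * n + 1) % 2 = 1 := by omega
      have h2 : (2 * n + 1) / 2 = n := by omega
      simp [P, h1, h2]
  have h' : ¬ TuringLE {x : ℕ | (ψ.rename fψ).eval (cons x P)}
      {x : ℕ | (φ.rename fφ).eval (cons x P)} := by
    simp only [S1.eval_rename, e1, e2]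
    exact h
  have hd := exists_data (φ.rename fφ) (ψ.rename fψ) P h'
  choose a τ ha hτ hS using hd
  let D : Data (φ.rename fφ) (ψ.rename fψ) P := ⟨a, τ, ha, hτ, hS⟩
  refine ⟨D.seg.M, inferInstance, inferInstance, Seg.modelBS1 D.expClosed, fun B => ?_⟩
  have := D.turingLE B
  simp only [S1.eval_rename] at this
  have e3 : ∀ x, (fun n => cons x D.PM (fφ n)) = cons x (fun n => ((pφ n : ℕ) : D.seg.M)) := by
    intro x; funext n
    cases n with
    | zero => rfl
    | succ n =>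
      show ((P (2 * n) : ℕ) : D.seg.M) = _
      simp [P]
  simp only [e3] at this
  exact this

end Pool.Agent.PostBSigma
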